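import Pool.Agent.H94.PP.Defs

/-!
helper33 (project MP_28250c_PP, block B; paper: /team-store/H94_PHP.md, BLOCK B): definitions.

* `col w u`: the column of the position `u` of a word; `sing w`: the single positions (column `≥` number of ones);
* `Fits P Q T`: the matchings which belong to the pair `(P, Q)`;
* `LF p P Q E f`: the properties of the functional `Lf_(P,Q)` of the paper, `E = z + 2 ^ l - 1`;
* `Dat`: tall and single pigeons and holes, columns, the bijection `mu` from tall holes to tall pigeons; `Dat.tall`: the signed sum over the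
  column group; `Sm`: the small functional; `Dat.lf`: the product.
-/

set_option autoImplicit false
open Finset

namespace PPh
namespace BB

/-- The column of the position `u` in the word `w`: the number of earlier positions with the same value. -/
def col {N : ℕ} (w : Fin N → ℕ) (u : Fin N) : ℕ := (univ.filter fun u' : Fin N => u' < u ∧ w u' = w u).card

/-- The single positions: the column is at least the number of ones. -/
def sing {N : ℕ} (w : Fin N → ℕ) : Finset (Fin N) := univ.filter fun u => ctt w 1 ≤ col w u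

/-- The weight of a word. -/
def wt {N : ℕ} (w : Fin N → ℕ) : ℕ := ∑ u, w u

/-- The position sum of a word. -/
def ph {N : ℕ} (w : Fin N → ℕ) : ℕ := ∑ u : Fin N, (u : ℕ) * w u

/-- The matching `T` fits to the pair `(P, Q)`. -/
def Fits {m n : ℕ} (P : Fin m → ℕ) (Q : Fin n → ℕ) (T : Finset (Fin m × Fin n)) : Prop :=
  IsM T ∧ (∀ i, Fp T i ↔ P i = 0) ∧ (∀ j, Fh T j ↔ Q j = 0) ∧ ∀ e ∈ T, P e.1 = Q e.2

open Classical in
/-- The finite set of the fitting matchings. -/
noncomputable def fits {m n : ℕ} (P : Fin m → ℕ) (Q : Fin n → ℕ) : Finset (Finset (Fin m × Fin n)) :=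
  univ.filter fun T => Fits P Q T

section

variable {α β : Type} [DecidableEq α] [DecidableEq β]

/-- Exchange of two pigeons. -/
def sP (x x' : α) (T : Finset (α × β)) : Finset (α × β) := T.image fun e => (Equiv.swap x x' e.1, e.2)

/-- Exchange of two holes. -/
def sQ (y y' : β) (T : Finset (α × β)) : Finset (α × β) := T.image fun e => (e.1, Equiv.swap y y' e.2)

end

/-- The properties of the functional of the pair `(P, Q)`. -/
structure LF (p : ℕ) {m n : ℕ} (P : Fin m → ℕ) (Q : Fin n → ℕ) (E : ℕ) (f : Finset (Fin m × Fin n) → ZMod p) : Prop where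
  van : ∀ T, ¬ IsM T → f T = 0
  unP : ∀ T x x', x ≠ x' → x ∉ sing P → x' ∉ sing P → col P x = col P x' → Fp T x → Fp T x' → f T = 0
  unQ : ∀ T y y', y ≠ y' → y ∉ sing Q → y' ∉ sing Q → col Q y = col Q y' → Fh T y → Fh T y' → f T = 0
  swP : ∀ T x x', x ≠ x' → x ∉ sing P → x' ∉ sing P → col P x = col P x' → f (sP x x' T) = - f T
  swQ : ∀ T y y', y ≠ y' → y ∉ sing Q → y' ∉ sing Q → col Q y = col Q y' → f (sQ y y' T) = - f T
  row : ∀ T, IsM T → T.card < E → ∀ i, Fp T i → ∑ j, f (insert (i, j) T) = f T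
  cl : ∀ T, IsM T → T.card < E → ∀ j, Fh T j → ∑ i, f (insert (i, j) T) = f T
  one : ∑ T ∈ fits P Q, f T = 1

/-- Tall and single pigeons and holes: `A` and `B` are the single ones, `c` is the column of a pigeon, `mu` is a bijection from the tall holes
to the tall pigeons. -/
structure Dat (α β : Type) where
  A : Finset α
  B : Finset β
  c : α → ℕ
  mu : β → α
  mem : ∀ j, j ∉ B → mu j ∉ A
  inj : ∀ j j', j ∉ B → j' ∉ B → mu j = mu j' → j = j'
  sur : ∀ i, i ∉ A → ∃ j, j ∉ B ∧ mu j = i

/-- The small functional (output of block B'). -/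
structure Sm (p K : ℕ) {α β : Type} [DecidableEq α] [DecidableEq β] (A : Finset α) (B : Finset β) (g : Finset (α × β) → ZMod p) : Prop where
  one : g ∅ = 1
  van : ∀ T, ¬ IsM T → g T = 0
  row : ∀ T, IsM T → T.card + 2 ≤ K → ∀ i ∈ A, Fp T i → T ⊆ A ×ˢ B → ∑ j ∈ B, g (insert (i, j) T) = g T
  cl : ∀ T, IsM T → T.card + 2 ≤ K → ∀ j ∈ B, Fh T j → T ⊆ A ×ˢ B → ∑ i ∈ A, g (insert (i, j) T) = g T

section

variable {α β : Type} [Fintype α] [DecidableEq α] [DecidableEq β]

/-- The column group. -/
def Dat.grp (d : Dat α β) : Finset (Equiv.Perm α) := univ.filter fun s => (∀ u, d.c (s u) = d.c u) ∧ ∀ u ∈ d.A, s u = u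

/-- The signed sum over the column group. -/
def Dat.tall (p : ℕ) (d : Dat α β) (T : Finset (α × β)) : ZMod p :=
  ∑ s ∈ d.grp, if ∀ e ∈ T, s (d.mu e.2) = e.1 then (((Equiv.Perm.sign s : ℤˣ) : ℤ) : ZMod p) else 0

/-- The functional `Lf`. -/
def Dat.lf (p : ℕ) (d : Dat α β) (g : Finset (α × β) → ZMod p) (T : Finset (α × β)) : ZMod p :=
  if ∀ e ∈ T, (e.1 ∈ d.A ↔ e.2 ∈ d.B) then g (T.filter fun e => e.1 ∈ d.A) * d.tall p (T.filter fun e => e.1 ∉ d.A) else 0

end

/-- The data of a pair of words. -/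
structure Dat.Of {m n : ℕ} (d : Dat (Fin m) (Fin n)) (P : Fin m → ℕ) (Q : Fin n → ℕ) : Prop where
  A : d.A = sing P
  B : d.B = sing Q
  c : d.c = col P
  lab : ∀ j, j ∉ d.B → P (d.mu j) = Q j
  col : ∀ j, j ∉ d.B → col P (d.mu j) = BB.col Q j

end BB
end PPh
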