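import Pool.Agent.H33.PP.BDefs

/-!
helper33 (MP_28250c_PP, block B), row Jp: functionals and powers of `J`.

`f` vanishes at non-matchings and is consistent at all matchings with at most `D` pairs; `n < m`.
* `lam_ex`: `Λ T := if T.card = D + 1 then f T else 0` is in `Lam p m n`: for a matching `T` and a free pigeon `i`: `(i, j) ∉ T`, so
  `(insert (i, j) T).card = T.card + 1`, and `∑ j, Λ (insert (i, j) T)` is `f T` if `T.card = D` and 0 otherwise; the same for a free hole.
  `(v.J ^ k) (ev T) Λ = f T` for `T.card + k = D + 1`, by induction on `k` for all `T`: if `T` is no matching, `ev T = 0` (`evnot`), `f T = 0`.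
  Otherwise there is a free pigeon `i` (`T.card ≤ n < m`: the holes of a matching are distinct), `v.J ^ (k + 1) (ev T) = v.J ^ k (v.J (ev T))
  = ∑ j, v.J ^ k (ev (insert (i, j) T))` (`Jrow`), induction hypothesis, row sum of `f` at `T` (`T.card ≤ D`). `k = 0`: `ev T Λ = Λ T = f T`
  by definition of `ev`.
* `jmd`: `(v.J ^ k) (ev T) ∈ Md p m n (T.card + k)`: the same induction (`T` no matching: 0).
-/

set_option autoImplicit false
open Finset

namespace PPh
namespace BB

private theorem Jp_card {m n : ℕ} {T : Finset (Fin m × Fin n)} (h : IsM T) : T.card ≤ n := by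
  have h1 : T.card ≤ (univ : Finset (Fin n)).card := by
    refine card_le_card_of_injOn (fun e => e.2) (fun _ _ => mem_coe.2 (mem_univ _)) ?_
    intro e he e' he' hee
    exact h e (mem_coe.1 he) e' (mem_coe.1 he') (Or.inr hee)
  rwa [card_univ, Fintype.card_fin] at h1

private theorem Jp_free {m n : ℕ} (hmn : n < m) {T : Finset (Fin m × Fin n)} (h : IsM T) : ∃ i, Fp T i := by
  by_contra hcon
  have h1 : (univ : Finset (Fin m)) ⊆ T.image (fun e => e.1) := by
    intro i _
    by_contra hi
    refine hcon ⟨i, fun e he hei => hi ?_⟩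
    exact mem_image.2 ⟨e, he, hei⟩
  have h2 := card_le_card h1
  rw [card_univ, Fintype.card_fin] at h2
  have h3 : (T.image (fun e => e.1)).card ≤ T.card := card_image_le
  have h4 := Jp_card h
  omega

private theorem Jp_insP {m n : ℕ} {T : Finset (Fin m × Fin n)} {i : Fin m} (h : Fp T i) (j : Fin n) :
    (insert (i, j) T).card = T.card + 1 :=
  card_insert_of_notMem fun hm => h _ hm rfl

private theorem Jp_insH {m n : ℕ} {T : Finset (Fin m × Fin n)} {j : Fin n} (h : Fh T j) (i : Fin m) :
    (insert (i, j) T).card = T.card + 1 :=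
  card_insert_of_notMem fun hm => h _ hm rfl

private theorem Jp_succ {p m n : ℕ} (v : VOps p m n) (k : ℕ) {T : Finset (Fin m × Fin n)} {i : Fin m} (h : Fp T i) :
    (v.J ^ (k + 1)) (ev p m n T) = ∑ j, (v.J ^ k) (ev p m n (insert (i, j) T)) := by
  rw [pow_succ, Module.End.mul_apply, v.Jrow T i h, map_sum]

theorem lam_ex {p m n : ℕ} (hmn : n < m) (v : VOps p m n) (D : ℕ) {f : Finset (Fin m × Fin n) → ZMod p} (hv : ∀ T, ¬ IsM T → f T = 0)
    (hr : ∀ T, IsM T → T.card ≤ D → ∀ i, Fp T i → ∑ j, f (insert (i, j) T) = f T)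
    (hc : ∀ T, IsM T → T.card ≤ D → ∀ j, Fh T j → ∑ i, f (insert (i, j) T) = f T) :
    ∃ Λ : Lam p m n, ∀ (k : ℕ) (T : Finset (Fin m × Fin n)), T.card + k = D + 1 → ((v.J ^ k) (ev p m n T)) Λ = f T := by
  have hR : ∀ T, IsM T → ∀ i, Fp T i → ∑ j, (fun T : Finset (Fin m × Fin n) => if T.card = D + 1 then f T else 0) (insert (i, j) T) =
      if T.card = D then f T else 0 := by
    intro T hT i hi
    have h1 : ∀ j : Fin n, (fun T : Finset (Fin m × Fin n) => if T.card = D + 1 then f T else 0) (insert (i, j) T) =
        if T.card = D then f (insert (i, j) T) else 0 := by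
      intro j
      show (if (insert (i, j) T).card = D + 1 then f (insert (i, j) T) else 0) = _
      rw [Jp_insP hi j]
      by_cases h : T.card = D
      · rw [if_pos h, if_pos (by rw [h])]
      · rw [if_neg h, if_neg (by omega)]
    rw [sum_congr rfl fun j _ => h1 j]
    by_cases h : T.card = D
    · rw [if_pos h, ← hr T hT (le_of_eq h) i hi]
      exact sum_congr rfl fun j _ => if_pos h
    · rw [if_neg h]
      exact sum_eq_zero fun j _ => if_neg h
  have hC : ∀ T, IsM T → ∀ j, Fh T j → ∑ i, (fun T : Finset (Fin m × Fin n) => if T.card = D + 1 then f T else 0) (insert (i, j) T) =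
      if T.card = D then f T else 0 := by
    intro T hT j hj
    have h1 : ∀ i : Fin m, (fun T : Finset (Fin m × Fin n) => if T.card = D + 1 then f T else 0) (insert (i, j) T) =
        if T.card = D then f (insert (i, j) T) else 0 := by
      intro i
      show (if (insert (i, j) T).card = D + 1 then f (insert (i, j) T) else 0) = _
      rw [Jp_insH hj i]
      by_cases h : T.card = D
      · rw [if_pos h, if_pos (by rw [h])]
      · rw [if_neg h, if_neg (by omega)]
    rw [sum_congr rfl fun i _ => h1 i]
    by_cases h : T.card = D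
    · rw [if_pos h, ← hc T hT (le_of_eq h) j hj]
      exact sum_congr rfl fun i _ => if_pos h
    · rw [if_neg h]
      exact sum_eq_zero fun i _ => if_neg h
  refine ⟨⟨fun T => if T.card = D + 1 then f T else 0, ?_, ?_, ?_⟩, ?_⟩
  · intro T hT
    show (if T.card = D + 1 then f T else 0) = 0
    rw [hv T hT]
    exact ite_self _
  · intro T hT i i' hi hi'
    rw [hR T hT i hi, hR T hT i' hi']
  · intro T hT i j hi hj
    rw [hR T hT i hi, hC T hT j hj]
  · intro k
    induction k with
    | zero =>
      intro T hT
      show (if T.card = D + 1 then f T else 0) = f T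
      rw [if_pos (by omega)]
    | succ k ih =>
      intro T hT
      by_cases hM : IsM T
      · obtain ⟨i, hi⟩ := Jp_free hmn hM
        rw [Jp_succ v k hi, LinearMap.sum_apply, ← hr T hM (by omega) i hi]
        exact sum_congr rfl fun j _ => ih _ (by rw [Jp_insP hi j]; omega)
      · rw [v.evnot T hM, map_zero, hv T hM]
        rfl

theorem jmd {p m n : ℕ} (hmn : n < m) (v : VOps p m n) (k : ℕ) (T : Finset (Fin m × Fin n)) :
    (v.J ^ k) (ev p m n T) ∈ Md p m n (T.card + k) := by
  induction k generalizing T with
  | zero => exact Submodule.subset_span ⟨T, rfl, rfl⟩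
  | succ k ih =>
    by_cases hM : IsM T
    · obtain ⟨i, hi⟩ := Jp_free hmn hM
      rw [Jp_succ v k hi]
      refine Submodule.sum_mem _ fun j _ => ?_
      have h1 := ih (insert (i, j) T)
      rw [Jp_insP hi j] at h1
      have h2 : T.card + (k + 1) = T.card + 1 + k := by omega
      rw [h2]
      exact h1
    · rw [v.evnot T hM, map_zero]
      exact Submodule.zero_mem _

end BB
end PPh
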