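import Pool.Agent.H33.PP.BDefs

set_option autoImplicit false
open Finset

namespace PPh
namespace BB

theorem li_of_tri {K V ι κ : Type} [Field K] [AddCommGroup V] [Module K V] [LinearOrder κ] (x : ι → V) (φ : ι → V →ₗ[K] K)
    (key : ι → κ) (h1 : ∀ a, φ a (x a) = 1) (h2 : ∀ a b, φ a (x b) ≠ 0 → b = a ∨ key a < key b) : LinearIndependent K x := by
  classical
  rw [linearIndependent_iff']
  intro s c hs b hb
  by_contra hne
  obtain ⟨a, ha, hmax⟩ := Finset.exists_max_image (s.filter (fun i => c i ≠ 0)) key ⟨b, by
    rw [mem_filter]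
    exact ⟨hb, hne⟩⟩
  rw [mem_filter] at ha
  have h3 : φ a (∑ i ∈ s, c i • x i) = c a := by
    rw [map_sum, Finset.sum_eq_single_of_mem a ha.1]
    · rw [map_smul, h1, smul_eq_mul, mul_one]
    · intro i hi hia
      rw [map_smul, smul_eq_mul]
      by_cases hci : c i = 0
      · rw [hci, zero_mul]
      · by_cases hx : φ a (x i) = 0
        · rw [hx, mul_zero]
        · exfalso
          rcases h2 a i hx with h | h
          · exact hia h
          · exact absurd (hmax i (by rw [mem_filter]; exact ⟨hi, hci⟩)) (not_le.2 h)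
  rw [hs, map_zero] at h3
  exact ha.2 h3.symm

theorem ncard_le {K V ι : Type} [Field K] [AddCommGroup V] [Module K V] [FiniteDimensional K V] (S : Set ι) (W : Submodule K V)
    (x : S → V) (hx : LinearIndependent K x) (hW : ∀ a, x a ∈ W) : S.ncard ≤ Module.finrank K W := by
  rcases S.finite_or_infinite with h | h
  · haveI : Fintype S := h.fintype
    have hy : LinearIndependent K (fun a : S => (⟨x a, hW a⟩ : W)) := by
      refine LinearIndependent.of_comp W.subtype ?_
      exact hx
    have := hy.fintype_card_le_finrank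
    rwa [← Nat.card_eq_fintype_card, Nat.card_coe_set_eq] at this
  · rw [h.ncard]
    exact Nat.zero_le _

end BB
end PPh
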