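import Pool.Agent.H33.PP.W1

/-!
helper33 (MP_28250c_PP, block B), row Pr: pairs of words.

* `pr_zero`: both words have the same number of nonzero values.
* `pr_wt`: `wt w = ∑ i, i * ctt w i` (over a large range).
* `fits_card`: the holes of `T` are the `j` with `Q j ≠ 0`, each occurs exactly once.
* `dat_ex`: `A = sing P`, `B = sing Q`, `c = col P`. For `j ∉ sing Q`: `col Q j < ctt Q 1`; there is a pigeon `u` with `P u = Q j`,
  `col P u = col Q j`: if `Q j ≥ 1` because `col Q j < ctt Q (Q j) = ctt P (Q j)` (`col_lt`, `cell_ex`); if `Q j = 0` because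
  `col Q j < ctt Q 1 = ctt P 1 ≤ ctt P 0`. It is not in `sing P` since `ctt P 1 = ctt Q 1`. `mu` := this pigeon (choice; for `j ∈ sing Q` any
  element, e.g. `Fin.castLE hmn j`). Injective by `col_inj` for `Q`; onto by the same argument with the words exchanged (`P u ≥ 1`: `cell_ex`
  for `Q`; `P u = 0`: `col P u < ctt P 1 = ctt Q 1 ≤ ctt Q 0`).
* `dat_card`: `|sing P| = ctt P 0 - ctt P 1`, `|sing Q| = ctt Q 0 - ctt Q 1` (`card_sing`), `pr_zero`.
* `dat_tall`: `|univ \ sing P| = m - ctt P 0 + ctt P 1 = (n - ctt Q 0) + ctt P 1`.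
-/

set_option autoImplicit false
open Finset

namespace PPh
namespace BB

variable {m n : ℕ}

private theorem Pr_fib {N : ℕ} (w : Fin N → ℕ) (L : ℕ) (hL : ∀ u, w u < L) : N = ∑ i ∈ range L, ctt w i := by
  have h := card_eq_sum_card_fiberwise (f := w) (s := (univ : Finset (Fin N))) (t := range L)
    (fun u _ => mem_coe.2 (mem_range.2 (hL u)))
  rw [card_univ, Fintype.card_fin] at h
  exact h

private theorem Pr_wt {N : ℕ} (w : Fin N → ℕ) (L : ℕ) (hL : ∀ u, w u < L) : wt w = ∑ i ∈ range L, i * ctt w i := by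
  have h := sum_fiberwise_of_maps_to (s := (univ : Finset (Fin N))) (t := range L) (g := w)
    (fun u _ => mem_range.2 (hL u)) (fun u => w u)
  unfold wt
  rw [← h]
  refine sum_congr rfl fun i _ => ?_
  rw [sum_congr rfl (g := fun _ => i) (fun u hu => (mem_filter.1 hu).2), sum_const, smul_eq_mul, mul_comm]
  rfl

private theorem Pr_bd {N : ℕ} (w : Fin N → ℕ) : ∃ L, ∀ u, w u < L := by
  refine ⟨(univ.sup w) + 1, fun u => ?_⟩
  exact Nat.lt_succ_of_le (le_sup (f := w) (mem_univ u))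

theorem pr_zero {P : Fin m → ℕ} {Q : Fin n → ℕ} (h : Pr P Q) : ctt P 0 + n = ctt Q 0 + m := by
  obtain ⟨L1, h1⟩ := Pr_bd P
  obtain ⟨L2, h2⟩ := Pr_bd Q
  have e1 := Pr_fib P (L1 + L2 + 1) (fun u => by have := h1 u; omega)
  have e2 := Pr_fib Q (L1 + L2 + 1) (fun u => by have := h2 u; omega)
  rw [sum_range_succ'] at e1 e2
  have e3 : ∑ i ∈ range (L1 + L2), ctt P (i + 1) = ∑ i ∈ range (L1 + L2), ctt Q (i + 1) :=
    sum_congr rfl fun i _ => h (i + 1) (Nat.le_add_left 1 i)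
  omega

theorem pr_wt {P : Fin m → ℕ} {Q : Fin n → ℕ} (h : Pr P Q) : wt P = wt Q := by
  obtain ⟨L1, h1⟩ := Pr_bd P
  obtain ⟨L2, h2⟩ := Pr_bd Q
  rw [Pr_wt P (L1 + L2 + 1) (fun u => by have := h1 u; omega), Pr_wt Q (L1 + L2 + 1) (fun u => by have := h2 u; omega),
    sum_range_succ', sum_range_succ']
  congr 1
  · exact sum_congr rfl fun i _ => by rw [h (i + 1) (Nat.le_add_left 1 i)]
  · rw [zero_mul, zero_mul]

theorem fits_card {P : Fin m → ℕ} {Q : Fin n → ℕ} {T : Finset (Fin m × Fin n)} (h : T ∈ fits P Q) : T.card + ctt Q 0 = n := by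
  classical
  have hf : Fits P Q T := (mem_filter.1 h).2
  obtain ⟨hM, -, hh, -⟩ := hf
  have e1 : T.image Prod.snd = univ.filter fun j => ¬ Q j = 0 := by
    ext j
    rw [mem_image, mem_filter]
    have hj := hh j
    constructor
    · rintro ⟨e, he, rfl⟩
      refine ⟨mem_univ _, fun h0 => ?_⟩
      exact (hj.2 h0) e he rfl
    · rintro ⟨-, h0⟩
      by_contra hn
      refine h0 (hj.1 fun e he hej => hn ⟨e, he, hej⟩)
  have e2 : T.card = (univ.filter fun j => ¬ Q j = 0).card := by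
    rw [← e1, card_image_of_injOn]
    intro e he e' he' hee
    exact hM e (mem_coe.1 he) e' (mem_coe.1 he') (Or.inr hee)
  have e3 := card_filter_add_card_filter_not (s := (univ : Finset (Fin n))) (fun j => Q j = 0)
  rw [card_univ, Fintype.card_fin] at e3
  unfold ctt
  omega

private theorem Pr_sym {P : Fin m → ℕ} {Q : Fin n → ℕ} (h : Pr P Q) : Pr Q P := fun i hi => (h i hi).symm

private theorem Pr_ex {P : Fin m → ℕ} {Q : Fin n → ℕ} (hP : Ballot P) (h : Pr P Q) {j : Fin n} (hj : j ∉ sing Q) :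
    ∃ u, P u = Q j ∧ col P u = col Q j ∧ u ∉ sing P := by
  have h1 : col Q j < ctt Q 1 := by
    by_contra hn
    exact hj (mem_filter.2 ⟨mem_univ _, not_lt.1 hn⟩)
  have h2 : ctt P 1 = ctt Q 1 := h 1 le_rfl
  have h3 : col Q j < ctt P (Q j) := by
    rcases Nat.eq_zero_or_pos (Q j) with h0 | h0
    · rw [h0]
      have := ctt_anti hP 0
      rw [zero_add] at this
      omega
    · rw [h (Q j) h0]
      exact col_lt Q j
  obtain ⟨u, hu, hc⟩ := cell_ex P h3
  refine ⟨u, hu, hc, fun hs => ?_⟩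
  have h4 := (mem_filter.1 hs).2
  omega

theorem dat_ex {P : Fin m → ℕ} {Q : Fin n → ℕ} (hP : Ballot P) (hQ : Ballot Q) (h : Pr P Q) (hmn : n ≤ m) :
    ∃ d : Dat (Fin m) (Fin n), d.Of P Q := by
  classical
  have hex : ∀ j : Fin n, ∃ u : Fin m, j ∉ sing Q → P u = Q j ∧ col P u = col Q j ∧ u ∉ sing P := by
    intro j
    by_cases hj : j ∈ sing Q
    · exact ⟨Fin.castLE hmn j, fun hn => absurd hj hn⟩
    · obtain ⟨u, hu⟩ := Pr_ex hP h hj
      exact ⟨u, fun _ => hu⟩
  choose mu hmu using hex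
  refine ⟨⟨sing P, sing Q, col P, mu, fun j hj => (hmu j hj).2.2, fun j j' hj hj' he => ?_, fun i hi => ?_⟩, ⟨rfl, rfl, rfl,
    fun j hj => (hmu j hj).1, fun j hj => (hmu j hj).2.1⟩⟩
  · obtain ⟨a1, a2, -⟩ := hmu j hj
    obtain ⟨b1, b2, -⟩ := hmu j' hj'
    rw [he] at a1 a2
    exact col_inj Q (a1.symm.trans b1) (a2.symm.trans b2)
  · obtain ⟨j, hj, hc, hs⟩ := Pr_ex hQ (Pr_sym h) hi
    refine ⟨j, hs, ?_⟩
    obtain ⟨a1, a2, -⟩ := hmu j hs
    exact col_inj P (a1.trans hj) (a2.trans hc)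

theorem dat_card {P : Fin m → ℕ} {Q : Fin n → ℕ} (hP : Ballot P) (hQ : Ballot Q) (h : Pr P Q) :
    (sing P).card + n = (sing Q).card + m := by
  have h1 := card_sing hP
  have h2 := card_sing hQ
  have h3 := h 1 le_rfl
  have h4 := pr_zero h
  omega

theorem dat_tall {P : Fin m → ℕ} {Q : Fin n → ℕ} (hP : Ballot P) (h : Pr P Q) :
    (univ \ sing P).card + ctt Q 0 = n + ctt P 1 := by
  have h1 := card_sing hP
  have h4 := pr_zero h
  have h5 := card_sdiff_add_card_eq_card (subset_univ (sing P))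
  rw [card_univ, Fintype.card_fin] at h5
  omega

end BB
end PPh
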