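import Pool.Agent.H33.PP.W2
import Pool.Agent.H33.PP.Pr

/-!
helper33 (MP_28250c_PP, block B), row Tr: the pairing is triangular.

Suppose `∑ T ∈ fits P' Q', f T ≠ 0`. (1) If `x ≠ x'` are pigeons in the same tall column of `P` with `P' x = P' x'`: if the common value is 0,
both are free in every `T ∈ fits P' Q'`, so `f T = 0` (`unP`): the sum is 0. If it is not 0: `T ↦ sP x x' T` is an involution of `fits P' Q'`
(the labels of `x, x'` agree) without fixed point (`x` is covered by exactly one pair `(x, j)`, and `(x, j) ∈ sP x x' T` iff `(x', j) ∈ T`,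
impossible in a matching) and `f (sP x x' T) = - f T` (`swP`): the sum is 0 by `Finset.sum_involution` (NOT by `2 * sum = 0`: `p = 2` is allowed).
So `P'` takes different values at different positions of every tall column of `P`; in the same way for `Q'` and `Q` (`unQ`, `swQ`).
(2) `order` for `P, P'` and for `Q, Q'`; `wt P = wt Q`, `wt P' = wt Q'` (`pr_wt`).
-/

set_option autoImplicit false
open Finset

namespace PPh
namespace BB

private theorem Tr_sw {γ δ : Type} [DecidableEq γ] (P : γ → δ) {x x' : γ} (h : P x = P x') (u : γ) : P (Equiv.swap x x' u) = P u := by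
  by_cases h1 : u = x
  · rw [h1, Equiv.swap_apply_left, h]
  · by_cases h2 : u = x'
    · rw [h2, Equiv.swap_apply_right, h]
    · rw [Equiv.swap_apply_of_ne_of_ne h1 h2]

private theorem Tr_iff {γ : Type} [DecidableEq γ] (x x' u v : γ) : Equiv.swap x x' u = v ↔ u = Equiv.swap x x' v := by
  constructor
  · intro h
    rw [← h, Equiv.swap_apply_self]
  · intro h
    rw [h, Equiv.swap_apply_self]

private theorem Tr_sPP {m n : ℕ} (x x' : Fin m) (T : Finset (Fin m × Fin n)) : sP x x' (sP x x' T) = T := by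
  unfold sP
  rw [Finset.image_image]
  ext e
  rw [Finset.mem_image]
  constructor
  · rintro ⟨e0, he0, rfl⟩
    simpa only [Function.comp, Equiv.swap_apply_self] using he0
  · intro he
    refine ⟨e, he, ?_⟩
    simp only [Function.comp, Equiv.swap_apply_self]

private theorem Tr_sQQ {m n : ℕ} (y y' : Fin n) (T : Finset (Fin m × Fin n)) : sQ y y' (sQ y y' T) = T := by
  unfold sQ
  rw [Finset.image_image]
  ext e
  rw [Finset.mem_image]
  constructor
  · rintro ⟨e0, he0, rfl⟩
    simpa only [Function.comp, Equiv.swap_apply_self] using he0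
  · intro he
    refine ⟨e, he, ?_⟩
    simp only [Function.comp, Equiv.swap_apply_self]

private theorem Tr_memP {m n : ℕ} {P' : Fin m → ℕ} {Q' : Fin n → ℕ} {x x' : Fin m} (hx : P' x = P' x') {T : Finset (Fin m × Fin n)}
    (hT : T ∈ fits P' Q') : sP x x' T ∈ fits P' Q' := by
  classical
  obtain ⟨h1, h2, h3, h4⟩ := (mem_filter.1 hT).2
  refine mem_filter.2 ⟨mem_univ _, ?_, ?_, ?_, ?_⟩
  · intro e he e' he' hee
    obtain ⟨a, ha, rfl⟩ := mem_image.1 he
    obtain ⟨b, hb, rfl⟩ := mem_image.1 he'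
    have hab : a = b := by
      refine h1 a ha b hb ?_
      rcases hee with h | h
      · exact Or.inl ((Equiv.swap x x').injective h)
      · exact Or.inr h
    rw [hab]
  · intro i
    have e1 : Fp (sP x x' T) i ↔ Fp T (Equiv.swap x x' i) := by
      constructor
      · intro h e he hei
        exact h _ (mem_image.2 ⟨e, he, rfl⟩) ((Tr_iff x x' e.1 i).2 hei)
      · intro h e he hei
        obtain ⟨a, ha, rfl⟩ := mem_image.1 he
        exact h a ha ((Tr_iff x x' a.1 i).1 hei)
    rw [e1, h2, Tr_sw P' hx]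
  · intro j
    rw [← h3 j]
    constructor
    · intro h e he hej
      exact h _ (mem_image.2 ⟨e, he, rfl⟩) hej
    · intro h e he hej
      obtain ⟨a, ha, rfl⟩ := mem_image.1 he
      exact h a ha hej
  · intro e he
    obtain ⟨a, ha, rfl⟩ := mem_image.1 he
    show P' (Equiv.swap x x' a.1) = Q' a.2
    rw [Tr_sw P' hx]
    exact h4 a ha

private theorem Tr_memQ {m n : ℕ} {P' : Fin m → ℕ} {Q' : Fin n → ℕ} {y y' : Fin n} (hy : Q' y = Q' y') {T : Finset (Fin m × Fin n)}
    (hT : T ∈ fits P' Q') : sQ y y' T ∈ fits P' Q' := by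
  classical
  obtain ⟨h1, h2, h3, h4⟩ := (mem_filter.1 hT).2
  refine mem_filter.2 ⟨mem_univ _, ?_, ?_, ?_, ?_⟩
  · intro e he e' he' hee
    obtain ⟨a, ha, rfl⟩ := mem_image.1 he
    obtain ⟨b, hb, rfl⟩ := mem_image.1 he'
    have hab : a = b := by
      refine h1 a ha b hb ?_
      rcases hee with h | h
      · exact Or.inl h
      · exact Or.inr ((Equiv.swap y y').injective h)
    rw [hab]
  · intro i
    rw [← h2 i]
    constructor
    · intro h e he hei
      exact h _ (mem_image.2 ⟨e, he, rfl⟩) hei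
    · intro h e he hei
      obtain ⟨a, ha, rfl⟩ := mem_image.1 he
      exact h a ha hei
  · intro j
    have e1 : Fh (sQ y y' T) j ↔ Fh T (Equiv.swap y y' j) := by
      constructor
      · intro h e he hej
        exact h _ (mem_image.2 ⟨e, he, rfl⟩) ((Tr_iff y y' e.2 j).2 hej)
      · intro h e he hej
        obtain ⟨a, ha, rfl⟩ := mem_image.1 he
        exact h a ha ((Tr_iff y y' a.2 j).1 hej)
    rw [e1, h3, Tr_sw Q' hy]
  · intro e he
    obtain ⟨a, ha, rfl⟩ := mem_image.1 he
    show P' a.1 = Q' (Equiv.swap y y' a.2)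
    rw [Tr_sw Q' hy]
    exact h4 a ha

private theorem Tr_P {m n p E : ℕ} {P P' : Fin m → ℕ} {Q Q' : Fin n → ℕ} {f : Finset (Fin m × Fin n) → ZMod p} (hf : LF p P Q E f)
    {x x' : Fin m} (hx : x ≠ x') (h1 : x ∉ sing P) (h2 : x' ∉ sing P) (hc : col P x = col P x') (he : P' x = P' x') :
    ∑ T ∈ fits P' Q', f T = 0 := by
  classical
  by_cases h0 : P' x = 0
  · refine sum_eq_zero fun T hT => ?_
    obtain ⟨-, h4, -, -⟩ := (mem_filter.1 hT).2
    exact hf.unP T x x' hx h1 h2 hc ((h4 x).2 h0) ((h4 x').2 (he ▸ h0))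
  · refine Finset.sum_involution (fun T _ => sP x x' T) ?_ ?_ ?_ ?_
    · intro T _
      rw [hf.swP T x x' hx h1 h2 hc]
      ring
    · intro T hT _ hfix
      obtain ⟨h3, h4, -, -⟩ := (mem_filter.1 hT).2
      have h5 : ¬ Fp T x := fun h => h0 ((h4 x).1 h)
      unfold Fp at h5
      push Not at h5
      obtain ⟨e, he1, he2⟩ := h5
      have h6 : (Equiv.swap x x' e.1, e.2) ∈ T := by
        rw [← hfix]
        exact mem_image.2 ⟨e, he1, rfl⟩
      have h7 := h3 _ h6 e he1 (Or.inr rfl)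
      have h8 : Equiv.swap x x' e.1 = e.1 := congrArg Prod.fst h7
      rw [he2, Equiv.swap_apply_left] at h8
      exact hx h8.symm
    · intro T hT
      exact Tr_memP he hT
    · intro T _
      exact Tr_sPP x x' T

private theorem Tr_Q {m n p E : ℕ} {P P' : Fin m → ℕ} {Q Q' : Fin n → ℕ} {f : Finset (Fin m × Fin n) → ZMod p} (hf : LF p P Q E f)
    {y y' : Fin n} (hy : y ≠ y') (h1 : y ∉ sing Q) (h2 : y' ∉ sing Q) (hc : col Q y = col Q y') (he : Q' y = Q' y') :
    ∑ T ∈ fits P' Q', f T = 0 := by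
  classical
  by_cases h0 : Q' y = 0
  · refine sum_eq_zero fun T hT => ?_
    obtain ⟨-, -, h4, -⟩ := (mem_filter.1 hT).2
    exact hf.unQ T y y' hy h1 h2 hc ((h4 y).2 h0) ((h4 y').2 (he ▸ h0))
  · refine Finset.sum_involution (fun T _ => sQ y y' T) ?_ ?_ ?_ ?_
    · intro T _
      rw [hf.swQ T y y' hy h1 h2 hc]
      ring
    · intro T hT _ hfix
      obtain ⟨h3, -, h4, -⟩ := (mem_filter.1 hT).2
      have h5 : ¬ Fh T y := fun h => h0 ((h4 y).1 h)
      unfold Fh at h5
      push Not at h5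
      obtain ⟨e, he1, he2⟩ := h5
      have h6 : (e.1, Equiv.swap y y' e.2) ∈ T := by
        rw [← hfix]
        exact mem_image.2 ⟨e, he1, rfl⟩
      have h7 := h3 _ h6 e he1 (Or.inl rfl)
      have h8 : Equiv.swap y y' e.2 = e.2 := congrArg Prod.snd h7
      rw [he2, Equiv.swap_apply_left] at h8
      exact hy h8.symm
    · intro T hT
      exact Tr_memQ he hT
    · intro T _
      exact Tr_sQQ y y' T

theorem tri {m n p E : ℕ} {P P' : Fin m → ℕ} {Q Q' : Fin n → ℕ} {f : Finset (Fin m × Fin n) → ZMod p} (hf : LF p P Q E f)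
    (hP : Ballot P) (hQ : Ballot Q) (hpr : Pr P Q) (hpr' : Pr P' Q') (hne : ∑ T ∈ fits P' Q', f T ≠ 0) :
    (P' = P ∧ Q' = Q) ∨ wt P < wt P' ∨ (wt P' = wt P ∧ ph P' + ph Q' < ph P + ph Q) := by
  have oP := order (w' := P') hP fun u u' h h1 h2 hc he => hne (Tr_P hf h h1 h2 hc he)
  have oQ := order (w' := Q') hQ fun u u' h h1 h2 hc he => hne (Tr_Q hf h h1 h2 hc he)
  have e1 := pr_wt hpr
  have e2 := pr_wt hpr'
  rcases lt_or_eq_of_le oP.1 with h | h
  · exact Or.inr (Or.inl h)
  · obtain ⟨a1, a2⟩ := oP.2 h.symm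
    obtain ⟨b1, b2⟩ := oQ.2 (by omega)
    by_cases h3 : ph P' = ph P ∧ ph Q' = ph Q
    · exact Or.inl ⟨a2 h3.1, b2 h3.2⟩
    · refine Or.inr (Or.inr ⟨h.symm, ?_⟩)
      omega

end BB
end PPh
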