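import Pool.Agent.H33.PP.Ex
import Pool.Agent.H33.PP.Tr
import Pool.Agent.H33.PP.Jp
import Pool.Agent.H33.PP.Li

/-!
helper33 (MP_28250c_PP, block B): `OutB' p l → OutB p l` (no open statement in this file).
-/

set_option autoImplicit false
open Finset

namespace PPh
namespace BB

instance fdLam (p m n : ℕ) [Fact p.Prime] : FiniteDimensional (ZMod p) (VE p m n) := by
  unfold VE
  infer_instance

theorem outB_of (p l : ℕ) [Fact p.Prime] (hB : OutB' p l) : OutB p l := by
  intro n D hD v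
  have hs : 0 < p ^ l := Nat.pow_pos (Fact.out : p.Prime).pos
  have hmn : n < n + p ^ l := by omega
  set S := bset (n + p ^ l) n (fun u w => n - D ≤ u ∧ u + 2 ≤ n - D + 2 ^ l ∧ w + (p + 2) ^ l ≤ u) with hS
  have hn : ∀ a : S, ctt a.1.2 0 ≤ n := by
    intro a
    have h := Finset.card_filter_le (univ : Finset (Fin n)) (fun u => a.1.2 u = 0)
    rw [Finset.card_univ, Fintype.card_fin] at h
    exact h
  have key : ∀ a : S, ∃ f : Finset (Fin (n + p ^ l) × Fin n) → ZMod p, LF p a.1.1 a.1.2 (D + 1) f := by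
    rintro ⟨⟨P, Q⟩, hP, hQ, hpr, h1, h2, h3⟩
    dsimp only at h1 h2 h3 hP hQ hpr
    exact lf_ex hB hP hQ hpr rfl h3 (by omega)
  choose f hf using key
  have key2 : ∀ a : S, ∃ Λ : Lam p (n + p ^ l) n, ∀ (k : ℕ) (T : Finset (Fin (n + p ^ l) × Fin n)), T.card + k = D + 1 →
      ((v.J ^ k) (ev p (n + p ^ l) n T)) Λ = f a T := fun a =>
    lam_ex hmn v D (hf a).van (fun T h1 h2 i hi => (hf a).row T h1 (by omega) i hi) (fun T h1 h2 j hj => (hf a).cl T h1 (by omega) j hj)
  choose Λ hΛ using key2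
  have hfc : ∀ a : S, ∀ T ∈ fits a.1.1 a.1.2, T.card ≤ D := by
    rintro ⟨⟨P, Q⟩, hP, hQ, hpr, h1, h2, h3⟩ T hT
    have h := fits_card hT
    dsimp only at h h1
    omega
  set x : S → VE p (n + p ^ l) n := fun b => v.J (∑ T ∈ fits b.1.1 b.1.2, (v.J ^ (D - T.card)) (ev p (n + p ^ l) n T)) with hx
  set φ : S → VE p (n + p ^ l) n →ₗ[ZMod p] ZMod p := fun a => Module.Dual.eval (ZMod p) (Lam p (n + p ^ l) n) (Λ a) with hφ
  have hpair : ∀ a b : S, φ a (x b) = ∑ T ∈ fits b.1.1 b.1.2, f a T := by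
    intro a b
    simp only [hφ, hx, Module.Dual.eval_apply, map_sum]
    refine Finset.sum_congr rfl fun T hT => ?_
    have h := hfc b T hT
    rw [← hΛ a (D - T.card + 1) T (by omega), pow_succ']
    rfl
  have hli : LinearIndependent (ZMod p) x := by
    refine li_of_tri x φ (fun a => (toLex (wt a.1.1, -((ph a.1.1 + ph a.1.2 : ℕ) : ℤ)) : ℕ ×ₗ ℤ)) ?_ ?_
    · intro a
      rw [hpair, (hf a).one]
    · intro a b hne
      rw [hpair] at hne
      rcases tri (hf a) a.2.1 a.2.2.1 a.2.2.2.1 b.2.2.2.1 hne with ⟨h1, h2⟩ | h | ⟨h1, h2⟩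
      · left
        exact Subtype.ext (Prod.ext h1 h2)
      · right
        exact Prod.Lex.toLex_lt_toLex.2 (Or.inl h)
      · right
        refine Prod.Lex.toLex_lt_toLex.2 (Or.inr ⟨h1.symm, ?_⟩)
        simp only
        omega
  refine ncard_le S _ x hli fun a => ?_
  refine Submodule.mem_map_of_mem (Submodule.sum_mem _ fun T hT => ?_)
  have h := jmd hmn v (D - T.card) T
  rwa [Nat.add_sub_cancel' (hfc a T hT)] at h

end BB
end PPh
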