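import Pool.Agent.H33.PP.W1

/-!
helper33 (MP_28250c_PP, block B), row Dg: the diagonal entry is 1.

Let `T` fit to `(P, Q)`. Every pair `e = (i, j)` of `T` has `P i = Q j`, `P i ≠ 0` (the pigeon is not free), so `i ∉ sing P = A`,
`j ∉ sing Q = B` (`tall_of_pos`): condition (C) of `lf` holds, `T.filter (∈ A) = ∅`, `T.filter (∉ A) = T`, `lf T = g ∅ * tall T = tall T`.
`∑_T tall T = ∑_s sgn s * #{T ∈ fits P Q | ∀ e ∈ T, s (mu e.2) = e.1}`. Let `T0 := {(mu j, j) : Q j ≠ 0}`; `T0 ∈ fits P Q` (`lab`, `inj`, `sur`: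
a pigeon `i` with `P i ≠ 0` is not in `A`, so `i = mu j`, `j ∉ B`, `Q j = P i ≠ 0`).
If `T` fits and `s ∈ grp` satisfies the condition: for `e = (i, j) ∈ T`: `col P i = c (s (mu j)) = c (mu j) = col P (mu j)` and
`P i = Q j = P (mu j)`, so `i = mu j` (`col_inj`). The holes of `T` are those with `Q j ≠ 0`, so `T = T0`, and `s` fixes all `mu j`, `Q j ≠ 0`, i.e.
all pigeons with `P ≠ 0`. Then `s = 1`: let `u` be a pigeon with `P u = 0`; if `u ∈ A`, `s u = u`; otherwise `P (s u) = 0` (if `P (s u) ≠ 0`,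
`s (s u) = s u`, so `s u = u`), and `col P (s u) = col P u`, so `s u = u` by `col_inj`. So the only pair `(T, s)` is `(T0, 1)`, with value 1.
-/

set_option autoImplicit false
open Finset

namespace PPh
namespace BB

private theorem Dg_grp {α β : Type} [Fintype α] [DecidableEq α] [DecidableEq β] (d : Dat α β) (s : Equiv.Perm α) :
    s ∈ d.grp ↔ (∀ u, d.c (s u) = d.c u) ∧ ∀ u ∈ d.A, s u = u := by
  unfold Dat.grp
  rw [Finset.mem_filter]
  exact ⟨fun h => h.2, fun h => ⟨Finset.mem_univ _, h⟩⟩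

section
variable {m n p : ℕ} {P : Fin m → ℕ} {Q : Fin n → ℕ}

private theorem Dg_mem {T : Finset (Fin m × Fin n)} (hT : Fits P Q T) {e : Fin m × Fin n} (he : e ∈ T) :
    P e.1 ≠ 0 ∧ Q e.2 ≠ 0 := by
  have h1 : P e.1 ≠ 0 := fun h => (hT.2.1 e.1).2 h e he rfl
  refine ⟨h1, ?_⟩
  rw [← hT.2.2.2 e he]
  exact h1

private theorem Dg_lf (hP : Ballot P) (hQ : Ballot Q) (d : Dat (Fin m) (Fin n)) (hd : d.Of P Q)
    {g : Finset (Fin m × Fin n) → ZMod p} (hg : g ∅ = 1) {T : Finset (Fin m × Fin n)} (hT : Fits P Q T) :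
    d.lf p g T = d.tall p T := by
  have hA : ∀ e ∈ T, e.1 ∉ d.A := by
    intro e he
    rw [hd.A]
    exact tall_of_pos hP (Dg_mem hT he).1
  have hB : ∀ e ∈ T, e.2 ∉ d.B := by
    intro e he
    rw [hd.B]
    exact tall_of_pos hQ (Dg_mem hT he).2
  have hc : ∀ e ∈ T, (e.1 ∈ d.A ↔ e.2 ∈ d.B) := fun e he => ⟨fun h => absurd h (hA e he), fun h => absurd h (hB e he)⟩
  have h1 : T.filter (fun e => e.1 ∈ d.A) = ∅ := Finset.filter_eq_empty_iff.2 fun {e} he => hA e he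
  have h2 : T.filter (fun e => e.1 ∉ d.A) = T := Finset.filter_true_of_mem fun e he => hA e he
  unfold Dat.lf
  rw [if_pos hc, h1, h2, hg, one_mul]

/-- the matching of the diagonal entry -/
private def Dg_T0 (Q : Fin n → ℕ) (d : Dat (Fin m) (Fin n)) : Finset (Fin m × Fin n) :=
  (univ.filter fun j => Q j ≠ 0).image fun j => (d.mu j, j)

private theorem Dg_memT0 {d : Dat (Fin m) (Fin n)} {e : Fin m × Fin n} :
    e ∈ Dg_T0 Q d ↔ Q e.2 ≠ 0 ∧ d.mu e.2 = e.1 := by
  unfold Dg_T0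
  rw [Finset.mem_image]
  constructor
  · rintro ⟨j, hj, rfl⟩
    exact ⟨(Finset.mem_filter.1 hj).2, rfl⟩
  · rintro ⟨h1, h2⟩
    refine ⟨e.2, Finset.mem_filter.2 ⟨Finset.mem_univ _, h1⟩, ?_⟩
    rw [h2]

private theorem Dg_fitT0 (hP : Ballot P) (hQ : Ballot Q) (d : Dat (Fin m) (Fin n)) (hd : d.Of P Q) :
    Fits P Q (Dg_T0 Q d) := by
  have hB : ∀ j, Q j ≠ 0 → j ∉ d.B := by
    intro j hj
    rw [hd.B]
    exact tall_of_pos hQ hj
  refine ⟨?_, ?_, ?_, ?_⟩
  · intro e he e' he' h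
    obtain ⟨h1, h2⟩ := Dg_memT0.1 he
    obtain ⟨h1', h2'⟩ := Dg_memT0.1 he'
    have h3 : e.2 = e'.2 := by
      rcases h with h | h
      · exact d.inj _ _ (hB _ h1) (hB _ h1') (by rw [h2, h2', h])
      · exact h
    refine Prod.ext ?_ h3
    rw [← h2, ← h2', h3]
  · intro i
    constructor
    · intro hF
      by_contra h0
      have hi : i ∉ d.A := by
        rw [hd.A]
        exact tall_of_pos hP h0
      obtain ⟨j, hj, hji⟩ := d.sur i hi
      have h1 := hd.lab j hj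
      rw [hji] at h1
      have h2 : (i, j) ∈ Dg_T0 Q d := Dg_memT0.2 ⟨by show Q j ≠ 0; rw [← h1]; exact h0, hji⟩
      exact hF (i, j) h2 rfl
    · intro h0 e he hei
      obtain ⟨h1, h2⟩ := Dg_memT0.1 he
      have h3 := hd.lab e.2 (hB _ h1)
      rw [h2, hei, h0] at h3
      exact h1 h3.symm
  · intro j
    constructor
    · intro hF
      by_contra h0
      exact hF (d.mu j, j) (Dg_memT0.2 ⟨h0, rfl⟩) rfl
    · intro h0 e he hej
      obtain ⟨h1, _⟩ := Dg_memT0.1 he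
      rw [hej] at h1
      exact h1 h0
  · intro e he
    obtain ⟨h1, h2⟩ := Dg_memT0.1 he
    rw [← h2]
    exact hd.lab e.2 (hB _ h1)

private theorem Dg_uniq (hP : Ballot P) (hQ : Ballot Q) (d : Dat (Fin m) (Fin n)) (hd : d.Of P Q)
    {T : Finset (Fin m × Fin n)} (hT : Fits P Q T) {s : Equiv.Perm (Fin m)} (hs : s ∈ d.grp)
    (h : ∀ e ∈ T, s (d.mu e.2) = e.1) : T = Dg_T0 Q d ∧ s = 1 := by
  have hg := (Dg_grp d s).1 hs
  have hB : ∀ j, Q j ≠ 0 → j ∉ d.B := by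
    intro j hj
    rw [hd.B]
    exact tall_of_pos hQ hj
  have h1 : ∀ e ∈ T, d.mu e.2 = e.1 := by
    intro e he
    have e1 := h e he
    have e2 := (Dg_mem hT he).2
    have e3 : P (d.mu e.2) = P e.1 := by rw [hd.lab e.2 (hB _ e2), hT.2.2.2 e he]
    have e4 : BB.col P (d.mu e.2) = BB.col P e.1 := by
      rw [← hd.c, ← hg.1 (d.mu e.2), e1]
    exact col_inj P e3 e4
  have h2 : T = Dg_T0 Q d := by
    ext e
    constructor
    · intro he
      exact Dg_memT0.2 ⟨(Dg_mem hT he).2, h1 e he⟩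
    · intro he
      obtain ⟨e1, e2⟩ := Dg_memT0.1 he
      have e3 : ¬ Fh T e.2 := fun hF => e1 ((hT.2.2.1 e.2).1 hF)
      unfold Fh at e3
      push Not at e3
      obtain ⟨e', he', he2⟩ := e3
      have e4 := h1 e' he'
      have e5 : e' = e := by
        refine Prod.ext ?_ he2
        rw [← e4, ← e2, he2]
      rw [← e5]
      exact he'
  refine ⟨h2, ?_⟩
  have h3 : ∀ u, P u ≠ 0 → s u = u := by
    intro u hu
    have e1 : u ∉ d.A := by
      rw [hd.A]
      exact tall_of_pos hP hu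
    obtain ⟨j, hj, hju⟩ := d.sur u e1
    have e2 := hd.lab j hj
    rw [hju] at e2
    have e3 : (u, j) ∈ T := by
      rw [h2]
      exact Dg_memT0.2 ⟨by show Q j ≠ 0; rw [← e2]; exact hu, hju⟩
    have e4 := h (u, j) e3
    rw [hju] at e4
    exact e4
  refine Equiv.ext fun u => ?_
  show s u = u
  by_cases hu : P u = 0
  · by_cases h0 : P (s u) = 0
    · refine col_inj P (by rw [h0, hu]) ?_
      have e1 := hg.1 u
      rw [hd.c] at e1
      exact e1
    · exact s.injective (h3 (s u) h0)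
  · exact h3 u hu

end

theorem diag {m n p : ℕ} {P : Fin m → ℕ} {Q : Fin n → ℕ} (hP : Ballot P) (hQ : Ballot Q) (d : Dat (Fin m) (Fin n)) (hd : d.Of P Q)
    {g : Finset (Fin m × Fin n) → ZMod p} (hg : g ∅ = 1) : ∑ T ∈ fits P Q, d.lf p g T = 1 := by
  classical
  have hf : ∀ T, T ∈ fits P Q ↔ Fits P Q T := by
    intro T
    unfold fits
    rw [Finset.mem_filter]
    exact ⟨fun h => h.2, fun h => ⟨Finset.mem_univ _, h⟩⟩
  rw [Finset.sum_congr rfl fun T hT => Dg_lf hP hQ d hd hg ((hf T).1 hT)]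
  have h0 := Dg_fitT0 hP hQ d hd
  rw [Finset.sum_eq_single (Dg_T0 Q d)]
  · unfold Dat.tall
    have h1 : (1 : Equiv.Perm (Fin m)) ∈ d.grp := (Dg_grp d 1).2 ⟨fun _ => rfl, fun _ _ => rfl⟩
    rw [Finset.sum_eq_single (1 : Equiv.Perm (Fin m))]
    · rw [if_pos]
      · rw [Equiv.Perm.sign_one]
        simp
      · intro e he
        exact (Dg_memT0.1 he).2
    · intro s hs hne
      rw [if_neg]
      intro h
      exact hne (Dg_uniq hP hQ d hd h0 hs h).2
    · intro h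
      exact absurd h1 h
  · intro T hT hne
    unfold Dat.tall
    refine Finset.sum_eq_zero fun s hs => ?_
    rw [if_neg]
    intro h
    exact hne (Dg_uniq hP hQ d hd ((hf T).1 hT) hs h).1
  · intro h
    exact absurd ((hf _).2 h0) h

end BB
end PPh
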