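import Pool.Agent.H33.PP.BDefs

/-!
helper33 (MP_28250c_PP, block B), row T3: `Dat.tall` changes the sign under exchanges in a column.

* `tall_swP`: the condition for `sP x x' T` is `s (mu e.2) = swap x x' e.1` for `e ∈ T`; substitute `s = swap x x' * s'` (a bijection of `grp`
  which changes the sign; `Finset.sum_bij'` or `Finset.sum_nbij'`).
* `tall_swQ`: the condition for `sQ y y' T` is `s (mu (swap y y' e.2)) = e.1`; for `e.2 ∉ B`: `mu (swap y y' e.2) = swap (mu y) (mu y') (mu e.2)`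
  (`inj`); substitute `s = s' * swap (mu y) (mu y')`; `mu y, mu y' ∉ A`.
-/

set_option autoImplicit false
open Finset

namespace PPh
namespace BB

variable {α β : Type} [Fintype α] [DecidableEq α] [DecidableEq β]

theorem T3_sw_c (d : Dat α β) {x x' : α} (hc : d.c x = d.c x') (u : α) :
    d.c (Equiv.swap x x' u) = d.c u := by
  by_cases h : u = x
  · rw [h, Equiv.swap_apply_left, hc]
  · by_cases h' : u = x'
    · rw [h', Equiv.swap_apply_right, hc]
    · rw [Equiv.swap_apply_of_ne_of_ne h h']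

theorem T3_sw_A (d : Dat α β) {x x' : α} (h1 : x ∉ d.A) (h2 : x' ∉ d.A) {u : α} (hu : u ∈ d.A) :
    Equiv.swap x x' u = u :=
  Equiv.swap_apply_of_ne_of_ne (fun h => h1 (h ▸ hu)) (fun h => h2 (h ▸ hu))

theorem T3_left (d : Dat α β) {x x' : α} (h1 : x ∉ d.A) (h2 : x' ∉ d.A) (hc : d.c x = d.c x')
    {s : Equiv.Perm α} (hs : s ∈ d.grp) : Equiv.swap x x' * s ∈ d.grp := by
  obtain ⟨_, ha, hb⟩ := mem_filter.1 hs
  refine mem_filter.2 ⟨mem_univ _, fun u => ?_, fun u hu => ?_⟩
  · rw [Equiv.Perm.mul_apply, T3_sw_c d hc, ha]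
  · rw [Equiv.Perm.mul_apply, hb u hu, T3_sw_A d h1 h2 hu]

theorem T3_right (d : Dat α β) {x x' : α} (h1 : x ∉ d.A) (h2 : x' ∉ d.A) (hc : d.c x = d.c x')
    {s : Equiv.Perm α} (hs : s ∈ d.grp) : s * Equiv.swap x x' ∈ d.grp := by
  obtain ⟨_, ha, hb⟩ := mem_filter.1 hs
  refine mem_filter.2 ⟨mem_univ _, fun u => ?_, fun u hu => ?_⟩
  · rw [Equiv.Perm.mul_apply, ha, T3_sw_c d hc]
  · rw [Equiv.Perm.mul_apply, T3_sw_A d h1 h2 hu, hb u hu]

theorem tall_swP (p : ℕ) (d : Dat α β) (T : Finset (α × β)) {x x' : α} (hx : x ≠ x') (h1 : x ∉ d.A) (h2 : x' ∉ d.A)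
    (hc : d.c x = d.c x') : d.tall p (sP x x' T) = - d.tall p T := by
  unfold Dat.tall
  rw [← sum_neg_distrib]
  refine sum_nbij' (fun s => Equiv.swap x x' * s) (fun s => Equiv.swap x x' * s)
    (fun s hs => T3_left d h1 h2 hc hs) (fun s hs => T3_left d h1 h2 hc hs)
    (fun s _ => ?_) (fun s _ => ?_) (fun s _ => ?_)
  · rw [← mul_assoc, Equiv.swap_mul_self, one_mul]
  · rw [← mul_assoc, Equiv.swap_mul_self, one_mul]
  · have hiff : (∀ e ∈ sP x x' T, s (d.mu e.2) = e.1) ↔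
        ∀ e ∈ T, (Equiv.swap x x' * s) (d.mu e.2) = e.1 := by
      unfold sP
      constructor
      · intro h e he
        have h3 := h _ (mem_image_of_mem _ he)
        rw [Equiv.Perm.mul_apply]
        simp only at h3
        rw [h3, Equiv.swap_apply_self]
      · intro h e he
        obtain ⟨e', he', rfl⟩ := mem_image.1 he
        have h3 := h e' he'
        rw [Equiv.Perm.mul_apply] at h3
        simp only
        rw [← h3, Equiv.swap_apply_self]
    have hsg : ((Equiv.Perm.sign (Equiv.swap x x' * s) : ℤˣ) : ℤ) = -((Equiv.Perm.sign s : ℤˣ) : ℤ) := by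
      rw [Equiv.Perm.sign_mul, Equiv.Perm.sign_swap hx]
      simp
    by_cases hT : ∀ e ∈ sP x x' T, s (d.mu e.2) = e.1
    · rw [if_pos hT, if_pos (hiff.1 hT), hsg]
      push_cast
      rw [neg_neg]
    · rw [if_neg hT, if_neg (fun h => hT (hiff.2 h)), neg_zero]

theorem tall_swQ (p : ℕ) (d : Dat α β) {T : Finset (α × β)} (hB : ∀ e ∈ T, e.2 ∉ d.B) {y y' : β} (hy : y ≠ y') (h1 : y ∉ d.B)
    (h2 : y' ∉ d.B) (hc : d.c (d.mu y) = d.c (d.mu y')) : d.tall p (sQ y y' T) = - d.tall p T := by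
  have hne : d.mu y ≠ d.mu y' := fun h => hy (d.inj y y' h1 h2 h)
  have hA1 := d.mem y h1
  have hA2 := d.mem y' h2
  have hmu : ∀ j, j ∉ d.B → d.mu (Equiv.swap y y' j) = Equiv.swap (d.mu y) (d.mu y') (d.mu j) := by
    intro j hj
    by_cases h : j = y
    · rw [h, Equiv.swap_apply_left, Equiv.swap_apply_left]
    · by_cases h' : j = y'
      · rw [h', Equiv.swap_apply_right, Equiv.swap_apply_right]
      · rw [Equiv.swap_apply_of_ne_of_ne h h', Equiv.swap_apply_of_ne_of_ne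
          (fun h3 => h (d.inj _ _ hj h1 h3)) (fun h3 => h' (d.inj _ _ hj h2 h3))]
  unfold Dat.tall
  rw [← sum_neg_distrib]
  refine sum_nbij' (fun s => s * Equiv.swap (d.mu y) (d.mu y')) (fun s => s * Equiv.swap (d.mu y) (d.mu y'))
    (fun s hs => T3_right d hA1 hA2 hc hs) (fun s hs => T3_right d hA1 hA2 hc hs)
    (fun s _ => ?_) (fun s _ => ?_) (fun s _ => ?_)
  · rw [mul_assoc, Equiv.swap_mul_self, mul_one]
  · rw [mul_assoc, Equiv.swap_mul_self, mul_one]
  · have hiff : (∀ e ∈ sQ y y' T, s (d.mu e.2) = e.1) ↔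
        ∀ e ∈ T, (s * Equiv.swap (d.mu y) (d.mu y')) (d.mu e.2) = e.1 := by
      unfold sQ
      constructor
      · intro h e he
        have h3 := h _ (mem_image_of_mem _ he)
        simp only at h3
        rw [hmu e.2 (hB e he)] at h3
        rw [Equiv.Perm.mul_apply]
        exact h3
      · intro h e he
        obtain ⟨e', he', rfl⟩ := mem_image.1 he
        have h3 := h e' he'
        rw [Equiv.Perm.mul_apply] at h3
        simp only
        rw [hmu e'.2 (hB e' he')]
        exact h3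
    have hsg : ((Equiv.Perm.sign (s * Equiv.swap (d.mu y) (d.mu y')) : ℤˣ) : ℤ) =
        -((Equiv.Perm.sign s : ℤˣ) : ℤ) := by
      rw [Equiv.Perm.sign_mul, Equiv.Perm.sign_swap hne]
      simp
    by_cases hT : ∀ e ∈ sQ y y' T, s (d.mu e.2) = e.1
    · rw [if_pos hT, if_pos (hiff.1 hT), hsg]
      push_cast
      rw [neg_neg]
    · rw [if_neg hT, if_neg (fun h => hT (hiff.2 h)), neg_zero]

end BB
end PPh
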