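import Pool.Agent.H33.PP.T1
import Pool.Agent.H33.PP.T3

/-!
helper33 (MP_28250c_PP, block B), row L1: vanishing and sign changes of `Dat.lf`.

`lf T = 0` unless every pair of `T` is single-single or tall-tall (C). Under (C) put `T2 = T.filter (e.1 ∈ A)` (both ends single) and
`T1 = T.filter (e.1 ∉ A)` (both ends tall).
* `lf_van`: if `T` is no matching then `T1` or `T2` is none: a violating pair `e, e'` has `e.1 = e'.1` or `e.2 = e'.2`, so both are in `T1` or
  both in `T2` (by (C)); `tall_van` resp. `Sm.van`.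
* `lf_unP`, `lf_unQ`: `T1` is a subset of `T`; `tall_unP`, `tall_unQ`.
* `lf_swP`: `x, x' ∉ A`, so (C) is preserved, `(sP x x' T).filter (∈ A) = T2` (the pairs of `T2` are not moved; a moved pair has first
  component outside `A` before and after), `(sP x x' T).filter (∉ A) = sP x x' T1`; `tall_swP`.
* `lf_swQ`: `y, y' ∉ B`; under (C) the same with `sQ`; `tall_swQ`.
-/

set_option autoImplicit false
open Finset

namespace PPh
namespace BB

variable {α β : Type} [Fintype α] [DecidableEq α] [DecidableEq β]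

private theorem L1_hB {d : Dat α β} {T : Finset (α × β)} (hC : ∀ e ∈ T, (e.1 ∈ d.A ↔ e.2 ∈ d.B)) :
    ∀ e ∈ T.filter (fun e => e.1 ∉ d.A), e.2 ∉ d.B := by
  intro e he
  rw [Finset.mem_filter] at he
  exact fun h => he.2 ((hC e he.1).2 h)

private theorem L1_sw {γ : Type} [DecidableEq γ] {A : Finset γ} {x x' : γ} (h1 : x ∉ A) (h2 : x' ∉ A) (u : γ) :
    Equiv.swap x x' u ∈ A ↔ u ∈ A := by
  rw [Equiv.swap_apply_def]
  split_ifs with e1 e2
  · subst e1; exact ⟨fun h => absurd h h2, fun h => absurd h h1⟩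
  · subst e2; exact ⟨fun h => absurd h h1, fun h => absurd h h2⟩
  · exact Iff.rfl

private theorem L1_swid {γ : Type} [DecidableEq γ] {A : Finset γ} {x x' : γ} (h1 : x ∉ A) (h2 : x' ∉ A) {u : γ} (hu : u ∈ A) :
    Equiv.swap x x' u = u :=
  Equiv.swap_apply_of_ne_of_ne (fun h => h1 (h ▸ hu)) (fun h => h2 (h ▸ hu))

theorem lf_van {p K : ℕ} (d : Dat α β) {g : Finset (α × β) → ZMod p} (hg : Sm p K d.A d.B g) {T : Finset (α × β)} (h : ¬ IsM T) :
    d.lf p g T = 0 := by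
  unfold Dat.lf
  split_ifs with hC
  · unfold IsM at h
    push Not at h
    obtain ⟨e, he, e', he', h1, h2⟩ := h
    by_cases hA : e.1 ∈ d.A
    · have hA' : e'.1 ∈ d.A := by
        rcases h1 with h1 | h1
        · rw [← h1]; exact hA
        · exact (hC e' he').2 (h1 ▸ (hC e he).1 hA)
      rw [hg.van, zero_mul]
      intro hM
      exact h2 (hM e (Finset.mem_filter.2 ⟨he, hA⟩) e' (Finset.mem_filter.2 ⟨he', hA'⟩) h1)
    · have hA' : e'.1 ∉ d.A := by
        rcases h1 with h1 | h1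
        · rw [← h1]; exact hA
        · intro h3
          exact hA ((hC e he).2 (h1.symm ▸ (hC e' he').1 h3))
      rw [tall_van p d (L1_hB hC), mul_zero]
      intro hM
      exact h2 (hM e (Finset.mem_filter.2 ⟨he, hA⟩) e' (Finset.mem_filter.2 ⟨he', hA'⟩) h1)
  · rfl

theorem lf_unP (p : ℕ) (d : Dat α β) (g : Finset (α × β) → ZMod p) {T : Finset (α × β)} {x x' : α} (hx : x ≠ x') (h1 : x ∉ d.A)
    (h2 : x' ∉ d.A) (hc : d.c x = d.c x') (h3 : Fp T x) (h4 : Fp T x') : d.lf p g T = 0 := by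
  unfold Dat.lf
  split_ifs with hC
  · rw [tall_unP p d hx h1 h2 hc (fun e he => h3 e (Finset.mem_filter.1 he).1) (fun e he => h4 e (Finset.mem_filter.1 he).1), mul_zero]
  · rfl

theorem lf_unQ (p : ℕ) (d : Dat α β) (g : Finset (α × β) → ZMod p) {T : Finset (α × β)} {y y' : β} (hy : y ≠ y') (h1 : y ∉ d.B)
    (h2 : y' ∉ d.B) (hc : d.c (d.mu y) = d.c (d.mu y')) (h3 : Fh T y) (h4 : Fh T y') : d.lf p g T = 0 := by
  unfold Dat.lf
  split_ifs with hC
  · rw [tall_unQ p d (L1_hB hC) hy h1 h2 hc (fun e he => h3 e (Finset.mem_filter.1 he).1) (fun e he => h4 e (Finset.mem_filter.1 he).1),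
      mul_zero]
  · rfl

theorem lf_swP (p : ℕ) (d : Dat α β) (g : Finset (α × β) → ZMod p) (T : Finset (α × β)) {x x' : α} (hx : x ≠ x') (h1 : x ∉ d.A)
    (h2 : x' ∉ d.A) (hc : d.c x = d.c x') : d.lf p g (sP x x' T) = - d.lf p g T := by
  have hCi : (∀ e ∈ sP x x' T, (e.1 ∈ d.A ↔ e.2 ∈ d.B)) ↔ ∀ e ∈ T, (e.1 ∈ d.A ↔ e.2 ∈ d.B) := by
    unfold sP
    rw [Finset.forall_mem_image]
    constructor
    · intro h e he
      have := h he
      rwa [L1_sw h1 h2] at this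
    · intro h e he
      show (Equiv.swap x x' e.1 ∈ d.A ↔ e.2 ∈ d.B)
      rw [L1_sw h1 h2]
      exact h e he
  have hA : (sP x x' T).filter (fun e => e.1 ∈ d.A) = T.filter (fun e => e.1 ∈ d.A) := by
    ext e
    unfold sP
    rw [Finset.mem_filter, Finset.mem_filter, Finset.mem_image]
    constructor
    · rintro ⟨⟨e0, he0, rfl⟩, h⟩
      have h' : e0.1 ∈ d.A := (L1_sw h1 h2 e0.1).1 h
      have h3 : Equiv.swap x x' e0.1 = e0.1 := L1_swid h1 h2 h'
      refine ⟨?_, h⟩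
      show (Equiv.swap x x' e0.1, e0.2) ∈ T
      rw [h3]; exact he0
    · rintro ⟨he, h⟩
      refine ⟨⟨e, he, ?_⟩, h⟩
      rw [L1_swid h1 h2 h]
  have hN : (sP x x' T).filter (fun e => e.1 ∉ d.A) = sP x x' (T.filter (fun e => e.1 ∉ d.A)) := by
    ext e
    unfold sP
    rw [Finset.mem_filter, Finset.mem_image, Finset.mem_image]
    constructor
    · rintro ⟨⟨e0, he0, rfl⟩, h⟩
      exact ⟨e0, Finset.mem_filter.2 ⟨he0, fun h' => h ((L1_sw h1 h2 e0.1).2 h')⟩, rfl⟩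
    · rintro ⟨e0, he0, rfl⟩
      rw [Finset.mem_filter] at he0
      exact ⟨⟨e0, he0.1, rfl⟩, fun h' => he0.2 ((L1_sw h1 h2 e0.1).1 h')⟩
  unfold Dat.lf
  rw [hA, hN]
  by_cases hC : ∀ e ∈ T, (e.1 ∈ d.A ↔ e.2 ∈ d.B)
  · rw [if_pos hC, if_pos (hCi.2 hC), tall_swP p d _ hx h1 h2 hc, mul_neg]
  · rw [if_neg hC, if_neg (fun h => hC (hCi.1 h)), neg_zero]

theorem lf_swQ (p : ℕ) (d : Dat α β) (g : Finset (α × β) → ZMod p) (T : Finset (α × β)) {y y' : β} (hy : y ≠ y') (h1 : y ∉ d.B)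
    (h2 : y' ∉ d.B) (hc : d.c (d.mu y) = d.c (d.mu y')) : d.lf p g (sQ y y' T) = - d.lf p g T := by
  have hCi : (∀ e ∈ sQ y y' T, (e.1 ∈ d.A ↔ e.2 ∈ d.B)) ↔ ∀ e ∈ T, (e.1 ∈ d.A ↔ e.2 ∈ d.B) := by
    unfold sQ
    rw [Finset.forall_mem_image]
    constructor
    · intro h e he
      have := h he
      rwa [L1_sw h1 h2] at this
    · intro h e he
      show (e.1 ∈ d.A ↔ Equiv.swap y y' e.2 ∈ d.B)
      rw [L1_sw h1 h2]
      exact h e he
  by_cases hC : ∀ e ∈ T, (e.1 ∈ d.A ↔ e.2 ∈ d.B)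
  · have hA : (sQ y y' T).filter (fun e => e.1 ∈ d.A) = T.filter (fun e => e.1 ∈ d.A) := by
      ext e
      unfold sQ
      rw [Finset.mem_filter, Finset.mem_filter, Finset.mem_image]
      constructor
      · rintro ⟨⟨e0, he0, rfl⟩, h⟩
        have h' : e0.2 ∈ d.B := (hC e0 he0).1 h
        have h3 : Equiv.swap y y' e0.2 = e0.2 := L1_swid h1 h2 h'
        refine ⟨?_, h⟩
        show (e0.1, Equiv.swap y y' e0.2) ∈ T
        rw [h3]; exact he0
      · rintro ⟨he, h⟩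
        refine ⟨⟨e, he, ?_⟩, h⟩
        rw [L1_swid h1 h2 ((hC e he).1 h)]
    have hN : (sQ y y' T).filter (fun e => e.1 ∉ d.A) = sQ y y' (T.filter (fun e => e.1 ∉ d.A)) := by
      ext e
      unfold sQ
      rw [Finset.mem_filter, Finset.mem_image, Finset.mem_image]
      constructor
      · rintro ⟨⟨e0, he0, rfl⟩, h⟩
        exact ⟨e0, Finset.mem_filter.2 ⟨he0, h⟩, rfl⟩
      · rintro ⟨e0, he0, rfl⟩
        rw [Finset.mem_filter] at he0
        exact ⟨⟨e0, he0.1, rfl⟩, he0.2⟩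
    unfold Dat.lf
    rw [hA, hN, if_pos hC, if_pos (hCi.2 hC), tall_swQ p d (L1_hB hC) hy h1 h2 hc, mul_neg]
  · unfold Dat.lf
    rw [if_neg hC, if_neg (fun h => hC (hCi.1 h)), neg_zero]

end BB
end PPh
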