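import Pool.Agent.H33.PP.BDefs

/-!
helper33 (MP_28250c_PP, block B), row T2: row and column sums of `Dat.tall`.

* `tall_row`: exchange the sums; for fixed `s ∈ grp` with `s (mu e.2) = e.1` on `T`: `∑ (j ∉ B), [s (mu j) = i] = 1`, since `s⁻¹ i ∉ A`
  (otherwise `s (s⁻¹ i) = s⁻¹ i`, so `i = s⁻¹ i ∈ A`) is `mu j` for exactly one `j ∉ B` (`sur`, `inj`).
* `tall_cl`: `∑ (i ∉ A), [s (mu j) = i] = 1`, since `s (mu j) ∉ A` (if it were in `A`, then `s (s (mu j)) = s (mu j)`, `s (mu j) = mu j ∈ A`).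
* `tall_empty`... not needed.
-/

set_option autoImplicit false
open Finset

namespace PPh
namespace BB

section

variable {α β : Type} [Fintype α] [DecidableEq α] [DecidableEq β]

private theorem T2_row_term (p : ℕ) (d : Dat α β) (T : Finset (α × β)) {i : α} (hi : i ∉ d.A) (s : Equiv.Perm α) (hs : s ∈ d.grp)
    (C : Finset β) (hC : ∀ j, j ∈ C ↔ j ∉ d.B) :
    ∑ j ∈ C, (if ∀ e ∈ insert (i, j) T, s (d.mu e.2) = e.1 then (((Equiv.Perm.sign s : ℤˣ) : ℤ) : ZMod p) else 0) =
      if ∀ e ∈ T, s (d.mu e.2) = e.1 then (((Equiv.Perm.sign s : ℤˣ) : ℤ) : ZMod p) else 0 := by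
  obtain ⟨ha, hb⟩ := (mem_filter.1 hs).2
  by_cases h : ∀ e ∈ T, s (d.mu e.2) = e.1
  · rw [if_pos h]
    have h1 : s.symm i ∉ d.A := by
      intro h2
      have h3 := hb _ h2
      rw [Equiv.apply_symm_apply] at h3
      exact hi (h3 ▸ h2)
    obtain ⟨j0, hj0, hj1⟩ := d.sur _ h1
    have h4 : s (d.mu j0) = i := by rw [hj1, Equiv.apply_symm_apply]
    rw [Finset.sum_eq_single j0]
    · rw [if_pos]
      intro e he
      rcases mem_insert.1 he with h5 | h5
      · rw [h5]
        exact h4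
      · exact h e h5
    · intro j hj hne
      rw [if_neg]
      intro h5
      have h6 : s (d.mu j) = i := h5 (i, j) (mem_insert_self _ _)
      exact hne (d.inj _ _ ((hC j).1 hj) hj0 (s.injective (h6.trans h4.symm)))
    · intro h5
      exact absurd ((hC j0).2 hj0) h5
  · rw [if_neg h]
    refine Finset.sum_eq_zero fun j _ => if_neg fun h5 => h fun e he => h5 e (mem_insert_of_mem he)

private theorem T2_cl_term (p : ℕ) (d : Dat α β) (T : Finset (α × β)) {j : β} (hj : j ∉ d.B) (s : Equiv.Perm α) (hs : s ∈ d.grp) :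
    ∑ i ∈ univ \ d.A, (if ∀ e ∈ insert (i, j) T, s (d.mu e.2) = e.1 then (((Equiv.Perm.sign s : ℤˣ) : ℤ) : ZMod p) else 0) =
      if ∀ e ∈ T, s (d.mu e.2) = e.1 then (((Equiv.Perm.sign s : ℤˣ) : ℤ) : ZMod p) else 0 := by
  obtain ⟨ha, hb⟩ := (mem_filter.1 hs).2
  by_cases h : ∀ e ∈ T, s (d.mu e.2) = e.1
  · rw [if_pos h]
    have h1 : s (d.mu j) ∉ d.A := by
      intro h2
      have h3 := s.injective (hb _ h2)
      exact d.mem j hj (h3 ▸ h2)
    rw [Finset.sum_eq_single (s (d.mu j))]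
    · rw [if_pos]
      intro e he
      rcases mem_insert.1 he with h5 | h5
      · rw [h5]
      · exact h e h5
    · intro i hi hne
      rw [if_neg]
      intro h5
      have h6 : s (d.mu j) = i := h5 (i, j) (mem_insert_self _ _)
      exact hne h6.symm
    · intro h5
      exact absurd (mem_sdiff.2 ⟨mem_univ _, h1⟩) h5
  · rw [if_neg h]
    refine Finset.sum_eq_zero fun i _ => if_neg fun h5 => h fun e he => h5 e (mem_insert_of_mem he)

end

variable {α β : Type} [Fintype α] [Fintype β] [DecidableEq α] [DecidableEq β]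

theorem tall_row (p : ℕ) (d : Dat α β) (T : Finset (α × β)) {i : α} (hi : i ∉ d.A) :
    ∑ j ∈ univ \ d.B, d.tall p (insert (i, j) T) = d.tall p T := by
  unfold Dat.tall
  rw [Finset.sum_comm]
  exact Finset.sum_congr rfl fun s hs => T2_row_term p d T hi s hs _ (fun j => by simp)

theorem tall_cl (p : ℕ) (d : Dat α β) (T : Finset (α × β)) {j : β} (hj : j ∉ d.B) :
    ∑ i ∈ univ \ d.A, d.tall p (insert (i, j) T) = d.tall p T := by
  unfold Dat.tall
  rw [Finset.sum_comm]
  exact Finset.sum_congr rfl fun s hs => T2_cl_term p d T hj s hs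

end BB
end PPh
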