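import Pool.Agent.H33.PP.T1
import Pool.Agent.H33.PP.T2

/-!
helper33 (MP_28250c_PP, block B), row L2: `Dat.lf` is consistent up to `z + K - 2`.

`T` is a matching with `T.card + 2 ≤ z + K`, `i` a free pigeon. If `T` has a mixed pair (not (C): `e.1 ∈ A ↔ e.2 ∈ B`), all terms are 0. Otherwise:
* `i ∉ A`: the terms with `j ∈ B` are 0 (mixed pair `(i, j)`); for `j ∉ B`: `(insert (i, j) T).filter (∈ A) = T2`,
  `(insert (i, j) T).filter (∉ A) = insert (i, j) T1`; `tall_row`.
* `i ∈ A`: the terms with `j ∉ B` are 0; for `j ∈ B`: `g (insert (i, j) T2) * tall T1`. If `T2.card + 2 ≤ K`: `Sm.row` for `T2` (a matching,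
  `i` free in it, `T2 ⊆ A ×ˢ B`). Otherwise `T1.card < z` (`T.card = T1.card + T2.card`), so `tall T1 = 0` by `tall_small`, and both sides are 0.
The same for holes (`tall_cl`, `Sm.cl`).
-/

set_option autoImplicit false
open Finset

namespace PPh
namespace BB

variable {α β : Type} [Fintype α] [Fintype β] [DecidableEq α] [DecidableEq β]

omit [Fintype β] in
private theorem L2_mixed (p : ℕ) (d : Dat α β) (g : Finset (α × β) → ZMod p) {T : Finset (α × β)} {e : α × β} (he : e ∈ T)
    (hm : ¬ (e.1 ∈ d.A ↔ e.2 ∈ d.B)) : d.lf p g T = 0 := by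
  unfold Dat.lf
  exact if_neg fun h => hm (h e he)

omit [Fintype β] in
private theorem L2_ok (p : ℕ) (d : Dat α β) (g : Finset (α × β) → ZMod p) {T : Finset (α × β)}
    (h : ∀ e ∈ T, (e.1 ∈ d.A ↔ e.2 ∈ d.B)) :
    d.lf p g T = g (T.filter fun e => e.1 ∈ d.A) * d.tall p (T.filter fun e => e.1 ∉ d.A) := by
  unfold Dat.lf
  exact if_pos h

omit [Fintype β] in
private theorem L2_insA (p : ℕ) (d : Dat α β) (g : Finset (α × β) → ZMod p) {T : Finset (α × β)}
    (h : ∀ e ∈ T, (e.1 ∈ d.A ↔ e.2 ∈ d.B)) {i : α} {j : β} (hi : i ∈ d.A) (hj : j ∈ d.B) :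
    d.lf p g (insert (i, j) T) =
      g (insert (i, j) (T.filter fun e => e.1 ∈ d.A)) * d.tall p (T.filter fun e => e.1 ∉ d.A) := by
  rw [L2_ok p d g (T := insert (i, j) T) (by
    intro e he
    rcases Finset.mem_insert.1 he with rfl | he
    · exact ⟨fun _ => hj, fun _ => hi⟩
    · exact h e he)]
  rw [Finset.filter_insert, if_pos hi, Finset.filter_insert, if_neg (by simpa using hi)]

omit [Fintype β] in
private theorem L2_insN (p : ℕ) (d : Dat α β) (g : Finset (α × β) → ZMod p) {T : Finset (α × β)}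
    (h : ∀ e ∈ T, (e.1 ∈ d.A ↔ e.2 ∈ d.B)) {i : α} {j : β} (hi : i ∉ d.A) (hj : j ∉ d.B) :
    d.lf p g (insert (i, j) T) =
      g (T.filter fun e => e.1 ∈ d.A) * d.tall p (insert (i, j) (T.filter fun e => e.1 ∉ d.A)) := by
  rw [L2_ok p d g (T := insert (i, j) T) (by
    intro e he
    rcases Finset.mem_insert.1 he with rfl | he
    · exact ⟨fun h => absurd h hi, fun h => absurd h hj⟩
    · exact h e he)]
  rw [Finset.filter_insert, if_neg (show ¬ (i, j).1 ∈ d.A from hi), Finset.filter_insert, if_pos (show (i, j).1 ∉ d.A from hi)]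

omit [Fintype α] [Fintype β] [DecidableEq α] [DecidableEq β] in
private theorem L2_isM {T : Finset (α × β)} (hT : IsM T) (q : α × β → Prop) [DecidablePred q] : IsM (T.filter q) :=
  fun e he e' he' => hT e (Finset.mem_of_mem_filter e he) e' (Finset.mem_of_mem_filter e' he')

omit [Fintype α] [Fintype β] [DecidableEq β] in
private theorem L2_sub (d : Dat α β) {T : Finset (α × β)} (h : ∀ e ∈ T, (e.1 ∈ d.A ↔ e.2 ∈ d.B)) :
    (T.filter fun e => e.1 ∈ d.A) ⊆ d.A ×ˢ d.B := by
  intro e he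
  obtain ⟨he, hA⟩ := Finset.mem_filter.1 he
  exact Finset.mem_product.2 ⟨hA, (h e he).1 hA⟩

omit [Fintype β] in
private theorem L2_zero {p K z t : ℕ} (d : Dat α β) (ht : ∀ u, u ∉ d.A → d.c u < t)
    (hz : z + t ≤ (univ \ d.A).card) {T : Finset (α × β)} (hc : T.card + 2 ≤ z + K)
    (hK : ¬ (T.filter fun e => e.1 ∈ d.A).card + 2 ≤ K) : d.tall p (T.filter fun e => e.1 ∉ d.A) = 0 := by
  apply tall_small p d ht hz
  have h1 : (T.filter fun e => e.1 ∈ d.A).card + (T.filter fun e => e.1 ∉ d.A).card = T.card :=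
    Finset.card_filter_add_card_filter_not (s := T) (fun e => e.1 ∈ d.A)
  omega

theorem lf_row {p K z t : ℕ} (d : Dat α β) {g : Finset (α × β) → ZMod p} (hg : Sm p K d.A d.B g) (ht : ∀ u, u ∉ d.A → d.c u < t)
    (hz : z + t ≤ (univ \ d.A).card) {T : Finset (α × β)} (hT : IsM T) (hc : T.card + 2 ≤ z + K) {i : α} (hi : Fp T i) :
    ∑ j, d.lf p g (insert (i, j) T) = d.lf p g T := by
  by_cases hm : ∀ e ∈ T, (e.1 ∈ d.A ↔ e.2 ∈ d.B)
  · rw [L2_ok p d g hm]
    by_cases hiA : i ∈ d.A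
    · -- small pigeon
      have h1 : ∑ j, d.lf p g (insert (i, j) T) = ∑ j ∈ d.B, d.lf p g (insert (i, j) T) := by
        refine (Finset.sum_subset (Finset.subset_univ _) ?_).symm
        intro j _ hj
        exact L2_mixed p d g (Finset.mem_insert_self _ _) (fun h => hj (h.1 hiA))
      rw [h1, Finset.sum_congr rfl (fun j hj => L2_insA p d g hm hiA hj), ← Finset.sum_mul]
      by_cases hK : (T.filter fun e => e.1 ∈ d.A).card + 2 ≤ K
      · rw [hg.row _ (L2_isM hT _) hK i hiA (fun e he => hi e (Finset.mem_of_mem_filter e he)) (L2_sub d hm)]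
      · rw [L2_zero d ht hz hc hK, mul_zero, mul_zero]
    · have h1 : ∑ j, d.lf p g (insert (i, j) T) = ∑ j ∈ univ \ d.B, d.lf p g (insert (i, j) T) := by
        refine (Finset.sum_subset (Finset.subset_univ _) ?_).symm
        intro j _ hj
        have hj' : j ∈ d.B := by
          by_contra h
          exact hj (Finset.mem_sdiff.2 ⟨Finset.mem_univ _, h⟩)
        exact L2_mixed p d g (Finset.mem_insert_self _ _) (fun h => hiA (h.2 hj'))
      rw [h1, Finset.sum_congr rfl (fun j hj => L2_insN p d g hm hiA (Finset.mem_sdiff.1 hj).2), ← Finset.mul_sum,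
        tall_row p d _ hiA]
  · push Not at hm
    obtain ⟨e, he, hm⟩ := hm
    have hm' : ¬ (e.1 ∈ d.A ↔ e.2 ∈ d.B) := by tauto
    rw [L2_mixed p d g he hm', Finset.sum_eq_zero]
    intro j _
    exact L2_mixed p d g (Finset.mem_insert_of_mem he) hm'

theorem lf_cl {p K z t : ℕ} (d : Dat α β) {g : Finset (α × β) → ZMod p} (hg : Sm p K d.A d.B g) (ht : ∀ u, u ∉ d.A → d.c u < t)
    (hz : z + t ≤ (univ \ d.A).card) {T : Finset (α × β)} (hT : IsM T) (hc : T.card + 2 ≤ z + K) {j : β} (hj : Fh T j) :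
    ∑ i, d.lf p g (insert (i, j) T) = d.lf p g T := by
  by_cases hm : ∀ e ∈ T, (e.1 ∈ d.A ↔ e.2 ∈ d.B)
  · rw [L2_ok p d g hm]
    by_cases hjB : j ∈ d.B
    · have h1 : ∑ i, d.lf p g (insert (i, j) T) = ∑ i ∈ d.A, d.lf p g (insert (i, j) T) := by
        refine (Finset.sum_subset (Finset.subset_univ _) ?_).symm
        intro i _ hi
        exact L2_mixed p d g (Finset.mem_insert_self _ _) (fun h => hi (h.2 hjB))
      rw [h1, Finset.sum_congr rfl (fun i hi => L2_insA p d g hm hi hjB), ← Finset.sum_mul]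
      by_cases hK : (T.filter fun e => e.1 ∈ d.A).card + 2 ≤ K
      · rw [hg.cl _ (L2_isM hT _) hK j hjB (fun e he => hj e (Finset.mem_of_mem_filter e he)) (L2_sub d hm)]
      · rw [L2_zero d ht hz hc hK, mul_zero, mul_zero]
    · have h1 : ∑ i, d.lf p g (insert (i, j) T) = ∑ i ∈ univ \ d.A, d.lf p g (insert (i, j) T) := by
        refine (Finset.sum_subset (Finset.subset_univ _) ?_).symm
        intro i _ hi
        have hi' : i ∈ d.A := by
          by_contra h
          exact hi (Finset.mem_sdiff.2 ⟨Finset.mem_univ _, h⟩)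
        exact L2_mixed p d g (Finset.mem_insert_self _ _) (fun h => hjB (h.1 hi'))
      rw [h1, Finset.sum_congr rfl (fun i hi => L2_insN p d g hm (Finset.mem_sdiff.1 hi).2 hjB), ← Finset.mul_sum,
        tall_cl p d _ hjB]
  · push Not at hm
    obtain ⟨e, he, hm⟩ := hm
    have hm' : ¬ (e.1 ∈ d.A ↔ e.2 ∈ d.B) := by tauto
    rw [L2_mixed p d g he hm', Finset.sum_eq_zero]
    intro i _
    exact L2_mixed p d g (Finset.mem_insert_of_mem he) hm'

end BB
end PPh
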