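import Pool.Agent.H33.PP.Pr
import Pool.Agent.H33.PP.L1
import Pool.Agent.H33.PP.L2
import Pool.Agent.H33.PP.Dg

/-!
helper33 (MP_28250c_PP, block B): existence of the functional of a ballot pair (no open statement in this file).
-/

set_option autoImplicit false
open Finset

namespace PPh
namespace BB

theorem lf_ex {m n p l : ℕ} (hB : OutB' p l) {P : Fin m → ℕ} {Q : Fin n → ℕ} (hP : Ballot P) (hQ : Ballot Q) (hpr : Pr P Q)
    (hm : m = n + p ^ l) (hgap : ctt Q 1 + (p + 2) ^ l ≤ ctt Q 0) {E : ℕ} (hE : E + 1 + ctt Q 0 ≤ n + 2 ^ l) :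
    ∃ f : Finset (Fin m × Fin n) → ZMod p, LF p P Q E f := by
  obtain ⟨d, hd⟩ := dat_ex hP hQ hpr (by omega)
  have hsq := card_sing hQ
  have hcard := dat_card hP hQ hpr
  obtain ⟨g, g1, g2, g3, g4, g5⟩ := hB (Fin m) (Fin n) inferInstance inferInstance d.A d.B (by rw [hd.B]; omega)
    (by rw [hd.A, hd.B]; omega)
  have hg : Sm p (2 ^ l) d.A d.B g := ⟨g1, g2, g4, g5⟩
  have ht : ∀ u, u ∉ d.A → d.c u < ctt P 1 := by
    intro u hu
    rw [hd.A] at hu
    rw [hd.c]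
    simpa [sing] using hu
  have hn : ctt Q 0 ≤ n := by
    have h := Finset.card_filter_le (univ : Finset (Fin n)) (fun u => Q u = 0)
    rw [Finset.card_univ, Fintype.card_fin] at h
    exact h
  have hz : (n - ctt Q 0) + ctt P 1 ≤ (univ \ d.A).card := by
    have h := dat_tall hP hpr
    rw [hd.A]
    omega
  refine ⟨d.lf p g, ⟨fun T h => lf_van d hg h, ?_, ?_, ?_, ?_, ?_, ?_, diag hP hQ d hd g1⟩⟩
  · intro T x x' hx h1 h2 hc h3 h4
    exact lf_unP p d g hx (by rwa [hd.A]) (by rwa [hd.A]) (by rwa [hd.c]) h3 h4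
  · intro T y y' hy h1 h2 hc h3 h4
    have e1 : y ∉ d.B := by rwa [hd.B]
    have e2 : y' ∉ d.B := by rwa [hd.B]
    exact lf_unQ p d g hy e1 e2 (by rw [hd.c, hd.col y e1, hd.col y' e2, hc]) h3 h4
  · intro T x x' hx h1 h2 hc
    exact lf_swP p d g T hx (by rwa [hd.A]) (by rwa [hd.A]) (by rwa [hd.c])
  · intro T y y' hy h1 h2 hc
    have e1 : y ∉ d.B := by rwa [hd.B]
    have e2 : y' ∉ d.B := by rwa [hd.B]
    exact lf_swQ p d g T hy e1 e2 (by rw [hd.c, hd.col y e1, hd.col y' e2, hc])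
  · intro T hT hc i hi
    exact lf_row d hg ht hz hT (by omega) hi
  · intro T hT hc j hj
    exact lf_cl d hg ht hz hT (by omega) hj

end BB
end PPh
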