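import Pool.Agent.H33.PP.BDefs

/-!
helper33 (MP_28250c_PP, block B), row T1: vanishing of `Dat.tall`.

* `tall_van`: every term is 0: if `s (mu e.2) = e.1` for all `e ∈ T`, then `T` is a matching (`s` injective, `mu` injective outside `B`).
* `tall_unP`: involution `s ↦ swap x x' * s` on `grp` (`Finset.sum_involution`): it stays in `grp` (`c x = c x'`, `x, x' ∉ A`), changes the
  sign (`Equiv.Perm.sign_mul`, `sign_swap`), has no fixed point, and does not change the condition, since no `e ∈ T` has `e.1 = x` or `x'`: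
  `swap x x' (s (mu e.2)) = e.1 ↔ s (mu e.2) = e.1`. [Do NOT argue with `2 * sum = 0`: `p = 2` is allowed.]
* `tall_unQ`: involution `s ↦ s * swap (mu y) (mu y')`: `mu e.2 ≠ mu y, mu y'` for `e ∈ T` (`inj`).
* `tall_small`: if fewer than `z` pigeons are covered, then more than `t` of the pigeons outside `A` are uncovered, so two of them have the
  same column (`Finset.exists_ne_map_eq_of_card_lt_of_maps_to` into `range t`), `tall_unP`.
-/

set_option autoImplicit false
open Finset

namespace PPh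
namespace BB

variable {α β : Type} [Fintype α] [DecidableEq α] [DecidableEq β]

theorem tall_van (p : ℕ) (d : Dat α β) {T : Finset (α × β)} (hB : ∀ e ∈ T, e.2 ∉ d.B) (h : ¬ IsM T) : d.tall p T = 0 := by
  unfold Dat.tall
  refine Finset.sum_eq_zero fun s _ => if_neg fun hs => h fun e he e' he' hee => ?_
  have h2 : e.2 = e'.2 := by
    rcases hee with h1 | h1
    · have h3 : s (d.mu e.2) = s (d.mu e'.2) := by rw [hs e he, hs e' he', h1]
      exact d.inj _ _ (hB e he) (hB e' he') (s.injective h3)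
    · exact h1
  have h3 : e.1 = e'.1 := by rw [← hs e he, ← hs e' he', h2]
  exact Prod.ext h3 h2

private theorem T1_c {γ : Type} (c : α → γ) {x x' : α} (hc : c x = c x') (v : α) : c (Equiv.swap x x' v) = c v := by
  by_cases h1 : v = x
  · rw [h1, Equiv.swap_apply_left, hc]
  · by_cases h2 : v = x'
    · rw [h2, Equiv.swap_apply_right, hc]
    · rw [Equiv.swap_apply_of_ne_of_ne h1 h2]

private theorem T1_sgn (p : ℕ) {x x' : α} (hx : x ≠ x') (s : Equiv.Perm α) (A B : Prop) [Decidable A] [Decidable B] (hAB : A ↔ B)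
    (s' : Equiv.Perm α) (hs : Equiv.Perm.sign s' = - Equiv.Perm.sign s) :
    (if A then (((Equiv.Perm.sign s : ℤˣ) : ℤ) : ZMod p) else 0) + (if B then (((Equiv.Perm.sign s' : ℤˣ) : ℤ) : ZMod p) else 0) = 0 := by
  by_cases h : A
  · rw [if_pos h, if_pos (hAB.1 h), hs]
    push_cast
    ring
  · rw [if_neg h, if_neg fun h1 => h (hAB.2 h1), add_zero]

theorem tall_unP (p : ℕ) (d : Dat α β) {T : Finset (α × β)} {x x' : α} (hx : x ≠ x') (h1 : x ∉ d.A) (h2 : x' ∉ d.A)
    (hc : d.c x = d.c x') (h3 : Fp T x) (h4 : Fp T x') : d.tall p T = 0 := by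
  unfold Dat.tall
  have hm : ∀ s ∈ d.grp, Equiv.swap x x' * s ∈ d.grp := by
    intro s hs
    obtain ⟨ha, hb⟩ := (mem_filter.1 hs).2
    refine mem_filter.2 ⟨mem_univ _, fun u => ?_, fun u hu => ?_⟩
    · rw [Equiv.Perm.mul_apply, T1_c d.c hc, ha]
    · rw [Equiv.Perm.mul_apply, hb u hu]
      exact Equiv.swap_apply_of_ne_of_ne (fun h => h1 (h ▸ hu)) (fun h => h2 (h ▸ hu))
  refine Finset.sum_involution (fun s _ => Equiv.swap x x' * s) ?_ ?_ hm ?_
  · intro s _
    refine T1_sgn p hx s _ _ ?_ _ ?_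
    · refine forall_congr' fun e => forall_congr' fun he => ?_
      rw [Equiv.Perm.mul_apply]
      constructor
      · intro h
        rw [h]
        exact Equiv.swap_apply_of_ne_of_ne (h3 e he) (h4 e he)
      · intro h
        have h5 : Equiv.swap x x' (Equiv.swap x x' (s (d.mu e.2))) = Equiv.swap x x' e.1 := by rw [h]
        rw [Equiv.swap_apply_self] at h5
        rw [h5]
        exact Equiv.swap_apply_of_ne_of_ne (h3 e he) (h4 e he)
    · rw [Equiv.Perm.sign_mul, Equiv.Perm.sign_swap hx, neg_one_mul]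
  · intro s _ _ h
    have h5 : Equiv.swap x x' = 1 := by
      have h6 := congrArg (fun r => r * s⁻¹) h
      simpa using h6
    exact hx (Equiv.swap_eq_one_iff.1 h5)
  · intro s _
    exact Equiv.swap_mul_self_mul x x' s

theorem tall_unQ (p : ℕ) (d : Dat α β) {T : Finset (α × β)} (hB : ∀ e ∈ T, e.2 ∉ d.B) {y y' : β} (hy : y ≠ y') (h1 : y ∉ d.B)
    (h2 : y' ∉ d.B) (hc : d.c (d.mu y) = d.c (d.mu y')) (h3 : Fh T y) (h4 : Fh T y') : d.tall p T = 0 := by
  unfold Dat.tall
  have hmu : d.mu y ≠ d.mu y' := fun h => hy (d.inj _ _ h1 h2 h)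
  have hm : ∀ s ∈ d.grp, s * Equiv.swap (d.mu y) (d.mu y') ∈ d.grp := by
    intro s hs
    obtain ⟨ha, hb⟩ := (mem_filter.1 hs).2
    refine mem_filter.2 ⟨mem_univ _, fun u => ?_, fun u hu => ?_⟩
    · rw [Equiv.Perm.mul_apply, ha, T1_c d.c hc]
    · have e1 : u ≠ d.mu y := fun h => d.mem y h1 (h ▸ hu)
      have e2 : u ≠ d.mu y' := fun h => d.mem y' h2 (h ▸ hu)
      rw [Equiv.Perm.mul_apply, Equiv.swap_apply_of_ne_of_ne e1 e2]
      exact hb u hu
  refine Finset.sum_involution (fun s _ => s * Equiv.swap (d.mu y) (d.mu y')) ?_ ?_ hm ?_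
  · intro s _
    refine T1_sgn p hmu s _ _ ?_ _ ?_
    · refine forall_congr' fun e => forall_congr' fun he => ?_
      rw [Equiv.Perm.mul_apply, Equiv.swap_apply_of_ne_of_ne (fun h => h3 e he (d.inj _ _ (hB e he) h1 h))
        (fun h => h4 e he (d.inj _ _ (hB e he) h2 h))]
    · rw [Equiv.Perm.sign_mul, Equiv.Perm.sign_swap hmu, mul_neg_one]
  · intro s _ _ h
    have h5 : Equiv.swap (d.mu y) (d.mu y') = 1 := by
      have h6 := congrArg (fun r => s⁻¹ * r) h
      simpa using h6
    exact hmu (Equiv.swap_eq_one_iff.1 h5)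
  · intro s _
    exact Equiv.mul_swap_mul_self _ _ s

theorem tall_small (p : ℕ) (d : Dat α β) {z t : ℕ} (ht : ∀ u, u ∉ d.A → d.c u < t) (hz : z + t ≤ (univ \ d.A).card)
    {T : Finset (α × β)} (hT : T.card < z) : d.tall p T = 0 := by
  have h1 : (T.image Prod.fst).card ≤ T.card := card_image_le
  have h2 : (univ \ d.A).card ≤ ((univ \ d.A) \ T.image Prod.fst).card + (T.image Prod.fst).card := by
    have h3 := card_le_card (show (univ \ d.A) ⊆ ((univ \ d.A) \ T.image Prod.fst) ∪ T.image Prod.fst by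
      intro u hu
      by_cases h : u ∈ T.image Prod.fst
      · exact mem_union_right _ h
      · exact mem_union_left _ (mem_sdiff.2 ⟨hu, h⟩))
    exact le_trans h3 (card_union_le _ _)
  have h4 : (range t).card < ((univ \ d.A) \ T.image Prod.fst).card := by
    rw [card_range]
    omega
  obtain ⟨x, hx, x', hx', hne, hc⟩ := Finset.exists_ne_map_eq_of_card_lt_of_maps_to h4 (f := d.c) (by
    intro u hu
    have hu' := mem_sdiff.1 (mem_coe.1 hu)
    exact mem_coe.2 (mem_range.2 (ht u (mem_sdiff.1 hu'.1).2)))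
  have hx1 := mem_sdiff.1 hx
  have hx2 := mem_sdiff.1 hx'
  exact tall_unP p d hne (mem_sdiff.1 hx1.1).2 (mem_sdiff.1 hx2.1).2 hc
    (fun e he h => hx1.2 (mem_image.2 ⟨e, he, h⟩)) (fun e he h => hx2.2 (mem_image.2 ⟨e, he, h⟩))

end BB
end PPh
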