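import Pool.Agent.H33.PP.BDefs

/-!
helper33 (MP_28250c_PP, block B), row W1: columns of a word.

* `col_inj`: the position is determined by the value and the column (the smaller one of two positions with the same value has the smaller
  column).
* `col_lt`: `col w u < ctt w (w u)` (the position `u` itself is not counted by `col`).
* `cell_ex`: every column `c < ctt w i` occurs in row `i` [`col w` is injective on `{w = i}` with values `< ctt w i`, so it is onto
  (`Finset.surj_on_of_inj_on_of_card_le` or `Finset.image` + card)].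
* `ctt_anti`: take `v = N` in `Ballot`. `ctt_le_one`: iterate.
* `tall_of_pos`: `col w u < ctt w (w u) ≤ ctt w 1`.
* `card_sing`: the positions in `sing w` have value 0 (`tall_of_pos`); `col w` is a bijection from `{w = 0}` to `range (ctt w 0)`, and `sing w`
  corresponds to `[ctt w 1, ctt w 0)`; `ctt w 1 ≤ ctt w 0`.
* `ballot_lt`: if `w u < w u'` and `col w u = col w u' = c`, then `u < u'`. It is enough to treat neighbouring rows `i`, `i + 1` (the cells
  `(i'', c)`, `w u ≤ i'' ≤ w u'`, exist by `ctt_anti` and `cell_ex`; induct on `w u' - w u`). For `w u' = w u + 1`: `Ballot` with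
  `v = u' + 1`, `i = w u`: the prefix contains `c + 1` positions with value `i + 1` (those before `u'` and `u'` itself), so at least `c + 1`
  positions with value `i`; if `u' < u` these are all positions `u'' < u` with value `i`, so `col w u ≥ c + 1`.
-/

set_option autoImplicit false
open Finset

namespace PPh
namespace BB

variable {N : ℕ}

private theorem W1_mono (w : Fin N → ℕ) {u u' : Fin N} (h : w u = w u') (hlt : u < u') : col w u < col w u' := by
  unfold col
  refine card_lt_card ⟨fun x hx => ?_, fun hs => ?_⟩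
  · obtain ⟨h1, h2⟩ := (mem_filter.1 hx).2
    exact mem_filter.2 ⟨mem_univ _, h1.trans hlt, h2.trans h⟩
  · have h1 := (mem_filter.1 (hs (mem_filter.2 ⟨mem_univ u, hlt, h⟩))).2.1
    exact lt_irrefl _ h1

theorem col_inj (w : Fin N → ℕ) {u u' : Fin N} (h : w u = w u') (hc : col w u = col w u') : u = u' := by
  rcases lt_trichotomy u u' with h1 | h1 | h1
  · exact absurd hc (W1_mono w h h1).ne
  · exact h1
  · exact absurd hc.symm (W1_mono w h.symm h1).ne

theorem col_lt (w : Fin N → ℕ) (u : Fin N) : col w u < ctt w (w u) := by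
  unfold col ctt
  refine card_lt_card ⟨fun x hx => ?_, fun hs => ?_⟩
  · exact mem_filter.2 ⟨mem_univ _, (mem_filter.1 hx).2.2⟩
  · have h1 := (mem_filter.1 (hs (mem_filter.2 ⟨mem_univ u, rfl⟩))).2.1
    exact lt_irrefl _ h1

theorem cell_ex (w : Fin N → ℕ) {i c : ℕ} (h : c < ctt w i) : ∃ u, w u = i ∧ col w u = c := by
  have h1 : ((univ.filter fun u => w u = i).image (col w)) = range (ctt w i) := by
    refine eq_of_subset_of_card_le (fun x hx => ?_) ?_
    · obtain ⟨u, hu, rfl⟩ := mem_image.1 hx
      have hu' := (mem_filter.1 hu).2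
      have := col_lt w u
      rw [hu'] at this
      exact mem_range.2 this
    · rw [card_range, card_image_of_injOn]
      · rfl
      · intro u hu u' hu' hc
        have a1 := (mem_filter.1 (mem_coe.1 hu)).2
        have a2 := (mem_filter.1 (mem_coe.1 hu')).2
        exact col_inj w (a1.trans a2.symm) hc
  have h2 : c ∈ (univ.filter fun u => w u = i).image (col w) := by
    rw [h1]
    exact mem_range.2 h
  obtain ⟨u, hu, hc⟩ := mem_image.1 h2
  exact ⟨u, (mem_filter.1 hu).2, hc⟩

theorem ctt_anti {w : Fin N → ℕ} (hw : Ballot w) (i : ℕ) : ctt w (i + 1) ≤ ctt w i := by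
  have h := hw N i
  have e : ∀ j, (univ.filter fun u : Fin N => (u : ℕ) < N ∧ w u = j) = univ.filter fun u => w u = j := by
    intro j
    refine filter_congr fun u _ => ?_
    exact ⟨fun h => h.2, fun h => ⟨u.2, h⟩⟩
  rw [e, e] at h
  exact h

theorem ctt_le_one {w : Fin N → ℕ} (hw : Ballot w) {i : ℕ} (hi : 1 ≤ i) : ctt w i ≤ ctt w 1 := by
  induction i, hi using Nat.le_induction with
  | base => exact le_refl _
  | succ i hi ih => exact (ctt_anti hw i).trans ih

theorem tall_of_pos {w : Fin N → ℕ} (hw : Ballot w) {u : Fin N} (hu : w u ≠ 0) : u ∉ sing w := by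
  intro h
  have h1 := (mem_filter.1 h).2
  have h2 := col_lt w u
  have h3 := ctt_le_one hw (Nat.one_le_iff_ne_zero.2 hu)
  omega

theorem card_sing {w : Fin N → ℕ} (hw : Ballot w) : (sing w).card + ctt w 1 = ctt w 0 := by
  have h0 : ∀ u ∈ sing w, w u = 0 := by
    intro u hu
    by_contra h
    exact tall_of_pos hw h hu
  have h1 : (sing w).image (col w) = Ico (ctt w 1) (ctt w 0) := by
    ext x
    rw [mem_image, mem_Ico]
    constructor
    · rintro ⟨u, hu, rfl⟩
      have h2 := col_lt w u
      rw [h0 u hu] at h2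
      exact ⟨(mem_filter.1 hu).2, h2⟩
    · rintro ⟨h2, h3⟩
      obtain ⟨u, hu, hc⟩ := cell_ex w h3
      exact ⟨u, mem_filter.2 ⟨mem_univ _, by rw [hc]; exact h2⟩, hc⟩
  have h2 : (sing w).card = ctt w 0 - ctt w 1 := by
    rw [← Nat.card_Ico, ← h1, card_image_of_injOn]
    intro u hu u' hu' hc
    exact col_inj w ((h0 u (mem_coe.1 hu)).trans (h0 u' (mem_coe.1 hu')).symm) hc
  have h3 : ctt w 1 ≤ ctt w 0 := ctt_anti hw 0
  omega

private theorem W1_nb {w : Fin N → ℕ} (hw : Ballot w) {u u' : Fin N} (h : w u' = w u + 1) (hc : col w u = col w u') :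
    u < u' := by
  by_contra hn
  have hne : u' ≠ u := by
    intro he
    rw [he] at h
    omega
  have hlt : u' < u := lt_of_le_of_ne (not_lt.1 hn) hne
  have h1 := hw ((u' : ℕ) + 1) (w u)
  have h2 : col w u' + 1 ≤ (univ.filter fun x : Fin N => (x : ℕ) < (u' : ℕ) + 1 ∧ w x = w u + 1).card := by
    have e : insert u' (univ.filter fun x : Fin N => x < u' ∧ w x = w u') ⊆
        univ.filter fun x : Fin N => (x : ℕ) < (u' : ℕ) + 1 ∧ w x = w u + 1 := by
      intro x hx
      rcases mem_insert.1 hx with rfl | hx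
      · exact mem_filter.2 ⟨mem_univ _, Nat.lt_succ_self _, h⟩
      · obtain ⟨a1, a2⟩ := (mem_filter.1 hx).2
        exact mem_filter.2 ⟨mem_univ _, (Fin.lt_def.1 a1).trans (Nat.lt_succ_self _), a2.trans h⟩
    have e2 := card_le_card e
    rw [card_insert_of_notMem (fun hx => lt_irrefl _ (mem_filter.1 hx).2.1)] at e2
    exact e2
  have h3 : (univ.filter fun x : Fin N => (x : ℕ) < (u' : ℕ) + 1 ∧ w x = w u).card ≤ col w u := by
    refine card_le_card fun x hx => ?_
    obtain ⟨a1, a2⟩ := (mem_filter.1 hx).2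
    refine mem_filter.2 ⟨mem_univ _, Fin.lt_def.2 ?_, a2⟩
    exact lt_of_lt_of_le a1 (Nat.succ_le_of_lt (Fin.lt_def.1 hlt))
  omega

private theorem W1_ind {w : Fin N → ℕ} (hw : Ballot w) (k : ℕ) : ∀ {u u' : Fin N}, w u' = w u + k + 1 →
    col w u = col w u' → u < u' := by
  induction k with
  | zero =>
    intro u u' h hc
    exact W1_nb hw h hc
  | succ k ih =>
    intro u u' h hc
    have h1 := col_lt w u'
    have h2 : ctt w (w u') ≤ ctt w (w u + k + 1) := by
      have h3 := ctt_anti hw (w u + k + 1)
      have e : w u' = w u + k + 1 + 1 := by omega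
      rw [e]
      exact h3
    obtain ⟨x, hx, hxc⟩ := cell_ex w (lt_of_lt_of_le h1 h2)
    have h4 : u < x := ih hx (hc.trans hxc.symm)
    have h5 : x < u' := W1_nb hw (by omega) hxc
    exact h4.trans h5

theorem ballot_lt {w : Fin N → ℕ} (hw : Ballot w) {u u' : Fin N} (h : w u < w u') (hc : col w u = col w u') : u < u' :=
  W1_ind hw (w u' - w u - 1) (by omega) hc

end BB
end PPh
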