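import Pool.Agent.H33.PP.W1

/-!
helper33 (MP_28250c_PP, block B), row W2: the order lemma for words.

`w` is ballot; `w'` takes different values at different positions of the same tall column of `w`. Then `wt w ≤ wt w'`; in the case of
equality `ph w' ≤ ph w`; and if these are equal as well, `w' = w`.

Proof. Let `t = ctt w 1`, `C c = {u | u ∉ sing w, col w u = c}`, `c < t`. By `cell_ex`, `col_inj`, `ctt_anti` the values of `w` on `C c` are
`0, .., h - 1` (each once), `h = (C c).card`. On `sing w` the word `w` is 0 (`tall_of_pos`). `w'` is injective on `C c`, so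
`∑ C c, w' ≥ 0 + 1 + .. + (h - 1) = ∑ C c, w` (induction on the cardinality, or: sort; a set of `h` natural numbers has sum at least
`∑ range h`), with equality only if `w' '' (C c) = {0, .., h - 1}`. Summing over the columns and `sing w`: `wt w ≤ wt w'`, and if
`wt w' = wt w` then `w' = 0` on `sing w` and `w' '' (C c) = w '' (C c)` for all `c < t`. In this case on each `C c` we have
`w' = w ∘ σ` for a permutation `σ` supported in `C c`; on `C c` the position and `w` are monovary (`ballot_lt`), so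
`∑ C c, u * w' u ≤ ∑ C c, u * w u` (`MonovaryOn.sum_mul_comp_perm_le_sum_mul`), with equality only if `u` and `w'` monovary on `C c`
(`MonovaryOn.sum_mul_comp_perm_eq_sum_mul_iff`), and then `w' = w` on `C c` (two strictly monotone enumerations of the same set). On `sing w`
both terms are 0.
(Alternative to the rearrangement inequality: `∑ C c, u * w u = ∑ k, ∑ (u ∈ C c with w u > k), u`, and `{u ∈ C c | w u > k}` consists of the
`h - 1 - k` largest elements of `C c`.)
-/

set_option autoImplicit false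
open Finset

namespace PPh
namespace BB

theorem W2_swap {N : ℕ} (s : Finset (Fin N)) (g : Fin N → ℕ) {a b : Fin N} (ha : a ∈ s) (hb : b ∈ s) (hab : b < a)
    (hg : g a ≤ g b) :
    ∑ u ∈ s, g (Equiv.swap a b u) = ∑ u ∈ s, g u ∧
    ∑ u ∈ s, (u : ℕ) * g (Equiv.swap a b u) = ∑ u ∈ s, (u : ℕ) * g u + ((a : ℕ) - b) * (g b - g a) := by
  have hne : b ≠ a := hab.ne
  have hb' : b ∈ s.erase a := mem_erase.2 ⟨hne, hb⟩
  have key : ∀ f : Fin N → ℕ, ∑ u ∈ s, f u = f a + (f b + ∑ u ∈ (s.erase a).erase b, f u) := fun f => by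
    rw [add_sum_erase _ f hb', add_sum_erase _ f ha]
  have hrest : ∀ u ∈ (s.erase a).erase b, Equiv.swap a b u = u := fun u hu => by
    rw [mem_erase, mem_erase] at hu
    exact Equiv.swap_apply_of_ne_of_ne hu.2.1 hu.1
  constructor
  · rw [key fun u => g (Equiv.swap a b u), key g, Equiv.swap_apply_left, Equiv.swap_apply_right,
      sum_congr rfl fun u hu => congrArg g (hrest u hu)]
    omega
  · rw [key fun u => (u : ℕ) * g (Equiv.swap a b u), key fun u => (u : ℕ) * g u, Equiv.swap_apply_left,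
      Equiv.swap_apply_right, sum_congr rfl fun u hu => by rw [hrest u hu]]
    obtain ⟨x, hx⟩ : ∃ x, (a : ℕ) = b + x := ⟨a - b, by have : (b : ℕ) < a := hab; omega⟩
    obtain ⟨y, hy⟩ : ∃ y, g b = g a + y := ⟨g b - g a, by omega⟩
    have e1 : (a : ℕ) - b = x := by omega
    have e2 : g b - g a = y := by omega
    rw [e1, e2, hx, hy]
    ring

theorem W2_core {N : ℕ} (w : Fin N → ℕ) : ∀ (n : ℕ) (s : Finset (Fin N)) (w' : Fin N → ℕ), s.card = n →
    (∀ u ∈ s, w u < n) → (∀ u ∈ s, ∀ u' ∈ s, w u = w u' → u = u') → (∀ u ∈ s, ∀ u' ∈ s, w u < w u' → u < u') →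
    (∀ u ∈ s, ∀ u' ∈ s, w' u = w' u' → u = u') →
    ∑ u ∈ s, w u ≤ ∑ u ∈ s, w' u ∧ (∑ u ∈ s, w' u = ∑ u ∈ s, w u →
      ∑ u ∈ s, (u : ℕ) * w' u ≤ ∑ u ∈ s, (u : ℕ) * w u ∧
      (∑ u ∈ s, (u : ℕ) * w' u = ∑ u ∈ s, (u : ℕ) * w u → ∀ u ∈ s, w' u = w u)) := by
  intro n
  induction n with
  | zero =>
    intro s w' hs _ _ _ _
    have h0 : s = ∅ := card_eq_zero.1 hs
    subst h0
    simp
  | succ n ih =>
    intro s w' hs hlt hinj hmon hinj'
    have himg : s.image w = range (n + 1) := by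
      refine eq_of_subset_of_card_le ?_ ?_
      · intro x hx
        obtain ⟨u, hu, rfl⟩ := mem_image.1 hx
        exact mem_range.2 (hlt u hu)
      · rw [card_range, card_image_of_injOn fun u hu u' hu' h => hinj u hu u' hu' h, hs]
    obtain ⟨a, ha, hwa⟩ : ∃ a ∈ s, w a = n := by
      have : n ∈ s.image w := by
        rw [himg]
        exact mem_range.2 (Nat.lt_succ_self n)
      exact mem_image.1 this
    obtain ⟨b, hb, hmax⟩ := exists_max_image s w' ⟨a, ha⟩
    have hnb : n ≤ w' b := by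
      have h1 : s.image w' ⊆ range (w' b + 1) := by
        intro x hx
        obtain ⟨u, hu, rfl⟩ := mem_image.1 hx
        exact mem_range.2 (Nat.lt_succ_of_le (hmax u hu))
      have h2 := card_le_card h1
      rw [card_range, card_image_of_injOn fun u hu u' hu' h => hinj' u hu u' hu' h, hs] at h2
      omega
    have hlast : ∀ u ∈ s, u ≠ a → u < a := by
      intro u hu hne
      refine hmon u hu a ha ?_
      have h1 := hlt u hu
      have h2 : w u ≠ w a := fun h => hne (hinj u hu a ha h)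
      omega
    have hsw : ∑ u ∈ s, w' (Equiv.swap a b u) = ∑ u ∈ s, w' u ∧
        ∑ u ∈ s, (u : ℕ) * w' u ≤ ∑ u ∈ s, (u : ℕ) * w' (Equiv.swap a b u) ∧
        (∑ u ∈ s, (u : ℕ) * w' u = ∑ u ∈ s, (u : ℕ) * w' (Equiv.swap a b u) → b = a) := by
      by_cases hba : b = a
      · subst hba
        simp
      · have h1 := hlast b hb hba
        have h2 : w' a < w' b := lt_of_le_of_ne (hmax a ha) fun h => hba (hinj' a ha b hb h).symm
        obtain ⟨h3, h4⟩ := W2_swap s w' ha hb h1 h2.le
        have h5 : 0 < ((a : ℕ) - b) * (w' b - w' a) := Nat.mul_pos (Nat.sub_pos_of_lt h1) (Nat.sub_pos_of_lt h2)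
        refine ⟨h3, by omega, fun h => ?_⟩
        omega
    obtain ⟨hs1, hs2, hs3⟩ := hsw
    have hcard : (s.erase a).card = n := by
      rw [card_erase_of_mem ha, hs]
      rfl
    have hsub : ∀ u ∈ s.erase a, u ∈ s := fun u hu => (mem_erase.1 hu).2
    have hmem : ∀ u ∈ s, Equiv.swap a b u ∈ s := by
      intro u hu
      by_cases h1 : u = a
      · rw [h1, Equiv.swap_apply_left]
        exact hb
      · by_cases h2 : u = b
        · rw [h2, Equiv.swap_apply_right]
          exact ha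
        · rw [Equiv.swap_apply_of_ne_of_ne h1 h2]
          exact hu
    obtain ⟨i1, i2⟩ := ih (s.erase a) (fun u => w' (Equiv.swap a b u)) hcard
      (fun u hu => by
        have h1 := hlt u (hsub u hu)
        have h2 : w u ≠ w a := fun h => (mem_erase.1 hu).1 (hinj u (hsub u hu) a ha h)
        omega)
      (fun u hu u' hu' => hinj u (hsub u hu) u' (hsub u' hu'))
      (fun u hu u' hu' => hmon u (hsub u hu) u' (hsub u' hu'))
      (fun u hu u' hu' h => (Equiv.swap a b).injective
        (hinj' _ (hmem u (hsub u hu)) _ (hmem u' (hsub u' hu')) h))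
    have e1 := add_sum_erase s w ha
    have e2 := add_sum_erase s (fun u => w' (Equiv.swap a b u)) ha
    have e3 := add_sum_erase s (fun u : Fin N => (u : ℕ) * w u) ha
    have e4 := add_sum_erase s (fun u : Fin N => (u : ℕ) * w' (Equiv.swap a b u)) ha
    simp only [Equiv.swap_apply_left] at e2 e4
    refine ⟨by omega, fun heq => ?_⟩
    have hbn : w' b = n := by omega
    obtain ⟨j1, j2⟩ := i2 (by omega)
    rw [hbn] at e4
    rw [hwa] at e3
    refine ⟨by omega, fun heq2 => ?_⟩
    have hba : b = a := hs3 (by omega)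
    have j3 := j2 (by omega)
    intro u hu
    by_cases hua : u = a
    · rw [hua, hwa, ← hbn, hba]
    · have h1 := j3 u (mem_erase.2 ⟨hua, hu⟩)
      have h2 : Equiv.swap a b u = u := by
        rw [hba, Equiv.swap_self]
        rfl
      rw [← h1]
      exact congrArg w' h2.symm

/-- The column `c`. -/
def W2_C {N : ℕ} (w : Fin N → ℕ) (c : ℕ) : Finset (Fin N) := (univ.filter fun u => u ∉ sing w).filter fun u => col w u = c

theorem W2_mem {N : ℕ} {w : Fin N → ℕ} {c : ℕ} {u : Fin N} : u ∈ W2_C w c ↔ u ∉ sing w ∧ col w u = c := by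
  rw [W2_C, mem_filter, mem_filter]
  simp

theorem W2_sum {N : ℕ} (w : Fin N → ℕ) (f : Fin N → ℕ) :
    ∑ u, f u = ∑ u ∈ sing w, f u + ∑ c ∈ range (ctt w 1), ∑ u ∈ W2_C w c, f u := by
  have h1 := sum_fiberwise_of_maps_to (s := univ.filter fun u => u ∉ sing w) (t := range (ctt w 1)) (g := col w)
    (fun u hu => by
      have h2 := (mem_filter.1 hu).2
      rw [sing, mem_filter] at h2
      rw [mem_range]
      by_contra h3
      exact h2 ⟨mem_univ _, not_lt.1 h3⟩) f
  have h3 := sum_filter_add_sum_filter_not univ (fun u => u ∈ sing w) f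
  have h4 : (univ.filter fun u => u ∈ sing w) = sing w := by
    ext u
    simp
  rw [h4] at h3
  rw [← h3, ← h1]
  rfl

theorem W2_core' {N : ℕ} {w w' : Fin N → ℕ} (hw : Ballot w)
    (h : ∀ u u', u ≠ u' → u ∉ sing w → u' ∉ sing w → col w u = col w u' → w' u ≠ w' u') (c : ℕ) :
    ∑ u ∈ W2_C w c, w u ≤ ∑ u ∈ W2_C w c, w' u ∧ (∑ u ∈ W2_C w c, w' u = ∑ u ∈ W2_C w c, w u →
      ∑ u ∈ W2_C w c, (u : ℕ) * w' u ≤ ∑ u ∈ W2_C w c, (u : ℕ) * w u ∧
      (∑ u ∈ W2_C w c, (u : ℕ) * w' u = ∑ u ∈ W2_C w c, (u : ℕ) * w u → ∀ u ∈ W2_C w c, w' u = w u)) := by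
  refine W2_core w _ (W2_C w c) w' rfl ?_ ?_ ?_ ?_
  · intro u hu
    have hu' := W2_mem.1 hu
    have hanti : ∀ k i, i + k = w u → c < ctt w i := by
      intro k
      induction k with
      | zero =>
        intro i hi
        have h1 := col_lt w u
        rw [hu'.2] at h1
        have h2 : i = w u := by omega
        rw [h2]
        exact h1
      | succ k ih =>
        intro i hi
        exact lt_of_lt_of_le (ih (i + 1) (by omega)) (ctt_anti hw i)
    have hsub : range (w u + 1) ⊆ (W2_C w c).image w := by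
      intro i hi
      have hi' := mem_range.1 hi
      obtain ⟨v, hv, hc⟩ := cell_ex w (hanti (w u - i) i (by omega))
      refine mem_image.2 ⟨v, W2_mem.2 ⟨?_, hc⟩, hv⟩
      have h2 := hu'.1
      rw [sing, mem_filter, hu'.2] at h2
      rw [sing, mem_filter, hc]
      exact fun h5 => h2 ⟨mem_univ _, h5.2⟩
    have h3 := card_le_card hsub
    rw [card_range] at h3
    have h4 := card_image_le (s := W2_C w c) (f := w)
    omega
  · intro u hu u' hu' he
    exact col_inj w he ((W2_mem.1 hu).2.trans (W2_mem.1 hu').2.symm)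
  · intro u hu u' hu' he
    exact ballot_lt hw he ((W2_mem.1 hu).2.trans (W2_mem.1 hu').2.symm)
  · intro u hu u' hu' he
    by_contra hne
    exact h u u' hne (W2_mem.1 hu).1 (W2_mem.1 hu').1 ((W2_mem.1 hu).2.trans (W2_mem.1 hu').2.symm) he

theorem order {N : ℕ} {w w' : Fin N → ℕ} (hw : Ballot w)
    (h : ∀ u u', u ≠ u' → u ∉ sing w → u' ∉ sing w → col w u = col w u' → w' u ≠ w' u') :
    wt w ≤ wt w' ∧ (wt w' = wt w → ph w' ≤ ph w ∧ (ph w' = ph w → w' = w)) := by
  have h0 : ∀ u ∈ sing w, w u = 0 := by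
    intro u hu
    by_contra hne
    exact tall_of_pos hw hne hu
  have hs0 : ∑ u ∈ sing w, w u = 0 := sum_eq_zero h0
  have hp0 : ∑ u ∈ sing w, (u : ℕ) * w u = 0 := sum_eq_zero fun u hu => by rw [h0 u hu, mul_zero]
  have e1 : wt w = _ := W2_sum w w
  have e2 : wt w' = _ := W2_sum w w'
  have e3 : ph w = _ := W2_sum w fun u => (u : ℕ) * w u
  have e4 : ph w' = _ := W2_sum w fun u => (u : ℕ) * w' u
  have hle : ∀ c ∈ range (ctt w 1), ∑ u ∈ W2_C w c, w u ≤ ∑ u ∈ W2_C w c, w' u := fun c _ => (W2_core' hw h c).1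
  have hle' := sum_le_sum hle
  refine ⟨by omega, fun heq => ?_⟩
  have hs' : ∑ u ∈ sing w, w' u = 0 := by omega
  have hs'' : ∀ u ∈ sing w, w' u = 0 := sum_eq_zero_iff.1 hs'
  have hp' : ∑ u ∈ sing w, (u : ℕ) * w' u = 0 := sum_eq_zero fun u hu => by rw [hs'' u hu, mul_zero]
  have hcol := (sum_eq_sum_iff_of_le hle).1 (by omega)
  have hle2 : ∀ c ∈ range (ctt w 1), ∑ u ∈ W2_C w c, (u : ℕ) * w' u ≤ ∑ u ∈ W2_C w c, (u : ℕ) * w u := fun c hc =>
    ((W2_core' hw h c).2 (hcol c hc).symm).1
  have hle2' := sum_le_sum hle2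
  refine ⟨by omega, fun heq2 => ?_⟩
  have hcol2 := (sum_eq_sum_iff_of_le hle2).1 (by omega)
  funext u
  by_cases hu : u ∈ sing w
  · rw [h0 u hu, hs'' u hu]
  · have hc : col w u ∈ range (ctt w 1) := by
      rw [mem_range]
      by_contra h3
      exact hu (by
        rw [sing, mem_filter]
        exact ⟨mem_univ _, not_lt.1 h3⟩)
    exact ((W2_core' hw h (col w u)).2 (hcol _ hc).symm).2 (hcol2 _ hc) u (W2_mem.2 ⟨hu, rfl⟩)

end BB
end PPh
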